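import Pool.Agent.R740.Hol.Pot

/-! # The contact set: upper bound for the potential and vanishing of the density -/

set_option autoImplicit false

open MeasureTheory Set Filter Topology Metric
open scoped ENNReal

namespace Pool.Agent.R740.Hol

open Pool.Agent.H283R3.Newt

/-- strong maximum principle on a connected open set -/
theorem smp_conn {R : ℝ} (hR : 0 < R) {τ : E3 → ℝ} (h : Good R τ) {H : Set E3} (hH : IsOpen H)
    (hHc : IsPreconnected H) {M : ℝ} (hle : ∀ x ∈ H, V τ x ≤ M)
    (hloc : ∀ x ∈ H, V τ x = M →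
      ∃ r : ℝ, 0 < r ∧ ∀ᵐ y ∂(volume : Measure E3), y ∈ ball x r → τ y ≤ 0)
    {x0 : E3} (hx0 : x0 ∈ H) (hM : V τ x0 = M) : ∀ x ∈ H, V τ x = M := by
  have hcl : IsClosed {x | V τ x = M} := isClosed_eq (h.V_cont hR) continuous_const
  have hop : IsOpen {x | x ∈ H ∧ V τ x = M} := by
    rw [Metric.isOpen_iff]
    rintro x ⟨hxH, hxM⟩
    obtain ⟨r, hr, hτ⟩ := hloc x hxH hxM
    obtain ⟨s, hs, hsH⟩ := Metric.isOpen_iff.1 hH x hxH
    refine ⟨min r s, lt_min hr hs, fun y hy => ?_⟩
    have hsub1 : ball x (min r s) ⊆ ball x r := ball_subset_ball (min_le_left _ _)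
    have hsub2 : ball x (min r s) ⊆ H := (ball_subset_ball (min_le_right _ _)).trans hsH
    refine ⟨hsub2 hy, smp hR h (lt_min hr hs) hxM (fun z hz => hle z (hsub2 hz)) ?_ y hy⟩
    filter_upwards [hτ] with z hz hz2 using hz (hsub1 hz2)
  have hsub := hHc.subset_of_closure_inter_subset hop ⟨x0, hx0, hx0, hM⟩ (by
    rintro x ⟨hx1, hx2⟩
    exact ⟨hx2, (closure_minimal (fun z hz => hz.2) hcl) hx1⟩)
  exact fun x hx => (hsub hx).2

lemma no_const {R : ℝ} (hR : 0 < R) {τ : E3 → ℝ} (h : Good R τ) {M : ℝ} (hM : 0 < M)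
    (hall : ∀ x, V τ x = M) : False := by
  obtain ⟨ρ, hρ⟩ := h.V_small hR hM
  obtain ⟨x, hx⟩ := NormedSpace.exists_lt_norm ℝ E3 ρ
  have h1 := hρ x hx.le
  rw [hall x, abs_of_pos hM] at h1
  exact lt_irrefl _ h1

/-- a potential which is positive somewhere has a maximum over a closed set -/
lemma exists_max {R : ℝ} (hR : 0 < R) {τ : E3 → ℝ} (h : Good R τ) {F : Set E3} (hF : IsClosed F)
    {x1 : E3} (hx1 : x1 ∈ F) (hpos : 0 < V τ x1) : ∃ x0 ∈ F, 0 < V τ x0 ∧ ∀ x ∈ F, V τ x ≤ V τ x0 := by
  have hK := (h.compact_ge hR hpos).inter_right hF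
  obtain ⟨x0, hx0, hmax⟩ := hK.exists_isMaxOn ⟨x1, (le_refl (V τ x1) : V τ x1 ≤ V τ x1), hx1⟩ (h.V_cont hR).continuousOn
  refine ⟨x0, hx0.2, hpos.trans_le hx0.1, fun x hx => ?_⟩
  by_cases hc : V τ x1 ≤ V τ x
  · exact hmax ⟨hc, hx⟩
  · exact (not_le.1 hc).le.trans hx0.1

theorem V_le {R : ℝ} (hR : 0 < R) {τ : E3 → ℝ} (dτ : Den R τ) {c : ℝ} (hc : 0 < c)
    (h2 : ∀ᵐ y ∂(volume : Measure E3), c < V τ y → τ y = 0) (x : E3) : V τ x ≤ c := by
  by_contra hx
  push Not at hx
  obtain ⟨x0, -, hp, hmax⟩ := exists_max hR dτ.good isClosed_univ (mem_univ x) (hc.trans hx)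
  have hM : c < V τ x0 := hx.trans_le (hmax x (mem_univ x))
  have hcont := dτ.good.V_cont hR
  refine no_const hR dτ.good hp fun z => ?_
  refine smp_conn hR dτ.good isOpen_univ isPreconnected_univ hmax ?_ (mem_univ x0) rfl z (mem_univ z)
  intro y _ hy
  have hop : IsOpen {z | c < V τ z} := isOpen_lt continuous_const hcont
  obtain ⟨r, hr, hsub⟩ := Metric.isOpen_iff.1 hop y (show c < V τ y by rw [hy]; exact hM)
  refine ⟨r, hr, ?_⟩
  filter_upwards [h2] with z hz hzb
  exact (hz (hsub hzb)).le

lemma kr_eq {r ζ : ℝ} (hr : 0 < r) (h : ζ < r) :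
    kr r ζ = ζ⁻¹ - (3 * r ^ 2 - ζ ^ 2) / (2 * r ^ 3) := by
  have := Real.pi_pos
  rw [kr, Nn, if_pos h, vb]
  congr 1
  field_simp
  ring

lemma kr_lower {r ζ : ℝ} (hζ : 0 < ζ) (h : ζ ≤ r / 2) : 1 / (2 * r) ≤ kr r ζ := by
  have hr : 0 < r := by linarith
  rw [kr_eq hr (by linarith)]
  have h1 : 2 / r ≤ ζ⁻¹ := by
    rw [← one_div, div_le_div_iff₀ hr hζ]; linarith
  have h2 : (3 * r ^ 2 - ζ ^ 2) / (2 * r ^ 3) ≤ 3 / (2 * r) := by
    rw [div_le_div_iff₀ (by positivity) (by positivity)]
    nlinarith [mul_nonneg (sq_nonneg ζ) hr.le]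
  have h3 : 1 / (2 * r) = 2 / r - 3 / (2 * r) := by field_simp; norm_num
  linarith

lemma kr_le_inv {r ζ : ℝ} (hr : 0 < r) (hζ : 0 ≤ ζ) : kr r ζ ≤ ζ⁻¹ := by
  unfold kr
  have := div_nonneg (Nn_nonneg hr hζ) (vb_pos hr).le
  linarith

lemma ioBall {f : E3 → ℝ} (hf : Continuous f) (x : E3) (r : ℝ) : IntegrableOn f (ball x r) :=
  (hf.continuousOn.integrableOn_compact (isCompact_closedBall x r)).mono_set ball_subset_closedBall

lemma int_const_ball (c : ℝ) (x : E3) {r : ℝ} (hr : 0 < r) : ∫ _ in ball x r, c = c * vb r := by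
  rw [setIntegral_const, measureReal_def, vol_ball hr, ENNReal.toReal_ofReal (vb_pos hr).le,
    smul_eq_mul, mul_comm]

lemma ae_ne' (x : E3) : ∀ᵐ y ∂(volume : Measure E3), y ≠ x := by simp [ae_iff]

lemma mean_W {R : ℝ} (hR : 0 < R) {τ : E3 → ℝ} (h : Good R τ) (c : ℝ) {r : ℝ} (hr : 0 < r) (x : E3) :
    (∫ z in ball x r, (c - V τ z)) / vb r = c - V τ x + ∫ y, τ y * kr r (dist x y) := by
  have hcont := h.V_cont hR
  rw [← h.mean_diff hR hr x, integral_sub (ioBall continuous_const x r) (ioBall hcont x r),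
    int_const_ball c x hr, sub_div, mul_div_assoc, div_self (vb_pos hr).ne']
  ring

lemma krint_nonneg {R : ℝ} {τ : E3 → ℝ} (dτ : Den R τ) {r : ℝ} (hr : 0 < r) (x : E3) :
    0 ≤ ∫ y, τ y * kr r (dist x y) := by
  apply integral_nonneg_of_ae
  filter_upwards [ae_ne' x] with y hy
  exact mul_nonneg (dτ.nn y) (kr_nonneg hr (dist_pos.2 hy.symm))

lemma kr_meas (r : ℝ) : Measurable (kr r) := by
  unfold kr Nn
  apply Measurable.sub (by fun_prop)
  apply Measurable.div_const
  exact Measurable.ite measurableSet_Iio (by fun_prop) (by fun_prop)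

lemma krint_integrable {R : ℝ} {τ : E3 → ℝ} (dτ : Den R τ) {r : ℝ} (hr : 0 < r) (x : E3) :
    Integrable (fun y => τ y * kr r (dist x y)) := by
  have h1 : Integrable ((ball x r).indicator (fun y => (dist x y)⁻¹)) :=
    (integrable_indicator_iff isOpen_ball.measurableSet).2 (kern_int hr x x)
  refine h1.mono' ?_ ?_
  · have := dτ.meas
    exact (this.mul ((kr_meas r).comp (by fun_prop))).aestronglyMeasurable
  · filter_upwards [ae_ne' x] with y hy
    have hd : 0 < dist x y := dist_pos.2 hy.symm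
    rw [Real.norm_of_nonneg (mul_nonneg (dτ.nn y) (kr_nonneg hr hd))]
    by_cases hb : y ∈ ball x r
    · rw [indicator_of_mem hb]
      calc τ y * kr r (dist x y) ≤ 1 * (dist x y)⁻¹ :=
            mul_le_mul (dτ.le_one y) (kr_le_inv hr hd.le) (kr_nonneg hr hd) zero_le_one
        _ = _ := one_mul _
    · rw [indicator_of_notMem hb, kr_zero hr (by rw [mem_ball, not_lt, dist_comm] at hb; exact hb),
        mul_zero]

lemma krint_le {R : ℝ} {τ : E3 → ℝ} (dτ : Den R τ) {r : ℝ} (hr : 0 < r) (x : E3) :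
    ∫ y, τ y * kr r (dist x y) ≤ 2 * Real.pi * r ^ 2 := by
  have h2 : ∫ y, (ball x r).indicator (fun y => (dist x y)⁻¹) y = Nn r 0 := by
    rw [integral_indicator isOpen_ball.measurableSet, ball_pot hr, dist_self]
  refine le_trans ?_ (Nn_le hr le_rfl)
  rw [← h2]
  apply integral_mono_ae (krint_integrable dτ hr x)
    ((integrable_indicator_iff isOpen_ball.measurableSet).2 (kern_int hr x x))
  filter_upwards [ae_ne' x] with y hy
  have hd : 0 < dist x y := dist_pos.2 hy.symm
  by_cases hb : y ∈ ball x r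
  · rw [indicator_of_mem hb]
    calc τ y * kr r (dist x y) ≤ 1 * (dist x y)⁻¹ :=
          mul_le_mul (dτ.le_one y) (kr_le_inv hr hd.le) (kr_nonneg hr hd) zero_le_one
      _ = _ := one_mul _
  · rw [indicator_of_notMem hb, kr_zero hr (by rw [mem_ball, not_lt, dist_comm] at hb; exact hb),
      mul_zero]

/-- quadratic growth of `c - V τ` away from a contact point -/
lemma W_growth {R : ℝ} (hR : 0 < R) {τ : E3 → ℝ} (dτ : Den R τ) {c : ℝ} (hV : ∀ x, V τ x ≤ c)
    {x0 : E3} (hx0 : V τ x0 = c) {r : ℝ} (hr : 0 < r) {y : E3} (hy : y ∈ ball x0 r) :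
    c - V τ y ≤ 64 * Real.pi * r ^ 2 := by
  have hcont := dτ.good.V_cont hR
  have hWc : Continuous fun z => c - V τ z := continuous_const.sub hcont
  have h1 := mean_W hR dτ.good c hr y
  have h2 := krint_nonneg dτ hr y
  have h2r : 0 < 2 * r := by linarith
  have h3 := mean_W hR dτ.good c h2r x0
  have h4 := krint_le dτ h2r x0
  have h5 : ∫ z in ball y r, (c - V τ z) ≤ ∫ z in ball x0 (2 * r), (c - V τ z) := by
    apply setIntegral_mono_set (ioBall hWc _ _)
    · exact ae_of_all _ fun z => by simpa using hV z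
    · refine ae_of_all _ fun z hz => ?_
      change z ∈ ball x0 (2 * r)
      replace hz : z ∈ ball y r := hz
      rw [mem_ball] at hz hy ⊢
      calc dist z x0 ≤ dist z y + dist y x0 := dist_triangle _ _ _
        _ < 2 * r := by linarith
  have hvb := vb_pos hr
  have hvb2 : vb (2 * r) = 8 * vb r := by unfold vb; ring
  rw [hx0, sub_self, zero_add] at h3
  rw [← h3, div_le_iff₀ (vb_pos h2r), hvb2] at h4
  have h6 : c - V τ y ≤ (∫ z in ball y r, (c - V τ z)) / vb r := by rw [h1]; linarith
  refine h6.trans ?_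
  rw [div_le_iff₀ hvb]
  calc ∫ z in ball y r, (c - V τ z) ≤ 2 * Real.pi * (2 * r) ^ 2 * (8 * vb r) := h5.trans h4
    _ = _ := by ring

/-- the density vanishes almost everywhere on the contact set -/
theorem contact_zero {R : ℝ} (hR : 0 < R) {τ : E3 → ℝ} (dτ : Den R τ) {c : ℝ}
    (hV : ∀ x, V τ x ≤ c) : ∀ᵐ y ∂(volume : Measure E3), V τ y = c → τ y = 0 := by
  have hcont := dτ.good.V_cont hR
  have hWc : Continuous fun z => c - V τ z := continuous_const.sub hcont
  have hpi := Real.pi_pos
  -- reduction to the sets where `τ > ε`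
  have key : ∀ n : ℕ, volume {y : E3 | V τ y = c ∧ 1 / ((n:ℝ) + 1) < τ y} = 0 := by
    intro n
    set ε : ℝ := 1 / ((n:ℝ) + 1) with hε
    have hεpos : 0 < ε := by positivity
    have hε1 : ε ≤ 1 := by
      rw [hε, div_le_one (by positivity)]
      have : (0:ℝ) ≤ n := n.cast_nonneg
      linarith
    set A : Set E3 := {y : E3 | V τ y = c ∧ ε < τ y} with hA
    have hAm : MeasurableSet A :=
      (measurableSet_eq_fun hcont.measurable measurable_const).inter
        (measurableSet_lt measurable_const dτ.meas)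
    by_contra hne
    have hdens := Besicovitch.ae_tendsto_measure_inter_div_of_measurableSet
      (volume : Measure E3) hAm
    obtain ⟨x0, hx0A, hx0⟩ : ∃ x0 ∈ A, Tendsto (fun r => volume (A ∩ closedBall x0 r) /
        volume (closedBall x0 r)) (𝓝[>] 0) (𝓝 (A.indicator 1 x0)) := by
      by_contra hcon
      push Not at hcon
      apply hne
      refine measure_mono_null (fun x hx => ?_) (ae_iff.1 hdens)
      exact hcon x hx
    rw [indicator_of_mem hx0A, Pi.one_apply] at hx0
    have hδ : ENNReal.ofReal (1 - ε / 1000) < 1 := by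
      rw [← ENNReal.ofReal_one]
      exact (ENNReal.ofReal_lt_ofReal_iff one_pos).2 (by linarith)
    have hev := (hx0.eventually (lt_mem_nhds hδ)).and self_mem_nhdsWithin
    obtain ⟨r, hr1, hr⟩ := hev.exists
    replace hr : 0 < r := hr
    -- volumes
    have hvb := vb_pos hr
    have hcb : volume (closedBall x0 r) = ENNReal.ofReal (vb r) := by
      rw [Measure.addHaar_closedBall_eq_addHaar_ball, vol_ball hr]
    rw [hcb, ENNReal.lt_div_iff_mul_lt (Or.inl (by simpa using hvb)) (Or.inl ENNReal.ofReal_ne_top),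
      ← ENNReal.ofReal_mul (by linarith)] at hr1
    have hfin : volume (A ∩ closedBall x0 r) ≠ ∞ :=
      ((measure_mono inter_subset_right).trans_lt measure_closedBall_lt_top).ne
    have hr2 : (1 - ε / 1000) * vb r < (volume (A ∩ closedBall x0 r)).toReal :=
      (ENNReal.ofReal_lt_iff_lt_toReal (by nlinarith) hfin).1 hr1
    have hcbr : (volume (closedBall x0 r)).toReal = vb r := by
      rw [hcb, ENNReal.toReal_ofReal hvb.le]
    -- measure of the complement of `A` in the ball
    have hcomp : (volume (closedBall x0 r \ A)).toReal < ε / 1000 * vb r := by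
      have h1 := measure_inter_add_sdiff (μ := (volume : Measure E3)) (closedBall x0 r) hAm
      have h2 : (volume (closedBall x0 r ∩ A)).toReal + (volume (closedBall x0 r \ A)).toReal =
          vb r := by
        rw [← ENNReal.toReal_add, h1, hcbr]
        · rw [inter_comm]; exact hfin
        · exact ((measure_mono sdiff_subset).trans_lt measure_closedBall_lt_top).ne
      rw [inter_comm] at h2
      linarith
    have hcomp' : (volume (ball x0 r \ A)).toReal < ε / 1000 * vb r := by
      refine lt_of_le_of_lt (ENNReal.toReal_mono ?_ (measure_mono ?_)) hcomp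
      · exact ((measure_mono sdiff_subset).trans_lt measure_closedBall_lt_top).ne
      · exact sdiff_subset_sdiff_left ball_subset_closedBall
    -- lower bound of the mean
    have hr2' : 0 < r / 2 := by linarith
    have hlow : ε / (2 * r) * (volume (A ∩ ball x0 (r / 2))).toReal ≤
        ∫ y, τ y * kr r (dist x0 y) := by
      have hm2 : MeasurableSet (A ∩ ball x0 (r / 2)) := hAm.inter isOpen_ball.measurableSet
      have hfin2 : volume (A ∩ ball x0 (r / 2)) ≠ ∞ :=
        ((measure_mono inter_subset_right).trans_lt measure_ball_lt_top).ne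
      have h1 : ∫ y, (A ∩ ball x0 (r / 2)).indicator (fun _ => ε / (2 * r)) y =
          ε / (2 * r) * (volume (A ∩ ball x0 (r / 2))).toReal := by
        rw [integral_indicator hm2, setIntegral_const, smul_eq_mul, measureReal_def, mul_comm]
      rw [← h1]
      apply integral_mono_ae
      · exact (integrable_indicator_iff hm2).2 (integrableOn_const hfin2)
      · exact krint_integrable dτ hr x0
      filter_upwards [ae_ne' x0] with y hy
      have hd : 0 < dist x0 y := dist_pos.2 hy.symm
      by_cases hyA : y ∈ A ∩ ball x0 (r / 2)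
      · rw [indicator_of_mem hyA]
        have h2 : dist x0 y ≤ r / 2 := by
          have := hyA.2
          rw [mem_ball, dist_comm] at this
          exact this.le
        have h3 := kr_lower hd h2
        have h4 : ε ≤ τ y := hyA.1.2.le
        calc ε / (2 * r) = ε * (1 / (2 * r)) := by ring
          _ ≤ τ y * kr r (dist x0 y) := mul_le_mul h4 h3 (by positivity) (dτ.nn y)
      · rw [indicator_of_notMem hyA]
        exact mul_nonneg (dτ.nn y) (kr_nonneg hr hd)
    -- upper bound of the mean
    have hup : (∫ z in ball x0 r, (c - V τ z)) ≤ 64 * Real.pi * r ^ 2 * (ε / 1000 * vb r) := by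
      have h1 : ∫ z in ball x0 r, (c - V τ z) =
          (∫ z in ball x0 r ∩ A, (c - V τ z)) + ∫ z in ball x0 r \ A, (c - V τ z) :=
        (integral_inter_add_sdiff hAm (ioBall hWc x0 r)).symm
      have h2 : ∫ z in ball x0 r ∩ A, (c - V τ z) = 0 := by
        apply setIntegral_eq_zero_of_forall_eq_zero
        intro z hz
        rw [hz.2.1, sub_self]
      have h3 : ∫ z in ball x0 r \ A, (c - V τ z) ≤
          ∫ _ in ball x0 r \ A, 64 * Real.pi * r ^ 2 := by
        have hfin3 : volume (ball x0 r \ A) ≠ ∞ :=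
          ((measure_mono sdiff_subset).trans_lt measure_ball_lt_top).ne
        apply setIntegral_mono_on
        · exact (ioBall hWc x0 r).mono_set sdiff_subset
        · exact integrableOn_const hfin3
        · exact isOpen_ball.measurableSet.diff hAm
        · intro z hz
          exact W_growth hR dτ hV hx0A.1 hr hz.1
      rw [h1, h2, zero_add]
      refine h3.trans ?_
      rw [setIntegral_const, smul_eq_mul, measureReal_def, mul_comm]
      exact mul_le_mul_of_nonneg_left hcomp'.le (by positivity)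
    have hmean := mean_W hR dτ.good c hr x0
    rw [hx0A.1, sub_self, zero_add, div_eq_iff hvb.ne'] at hmean
    -- the part of `A` in the half ball
    have hhalf : (1 / 8 - ε / 1000) * vb r ≤ (volume (A ∩ ball x0 (r / 2))).toReal := by
      have h1 := measure_inter_add_sdiff (μ := (volume : Measure E3)) (ball x0 (r / 2)) hAm
      have h2 : (volume (ball x0 (r / 2) ∩ A)).toReal + (volume (ball x0 (r / 2) \ A)).toReal =
          vb (r / 2) := by
        rw [← ENNReal.toReal_add, h1, vol_ball hr2', ENNReal.toReal_ofReal (vb_pos hr2').le]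
        · exact ((measure_mono inter_subset_left).trans_lt measure_ball_lt_top).ne
        · exact ((measure_mono sdiff_subset).trans_lt measure_ball_lt_top).ne
      have h3 : (volume (ball x0 (r / 2) \ A)).toReal ≤ (volume (ball x0 r \ A)).toReal := by
        apply ENNReal.toReal_mono
        · exact ((measure_mono sdiff_subset).trans_lt measure_ball_lt_top).ne
        · exact measure_mono (sdiff_subset_sdiff_left (ball_subset_ball (by linarith)))
      have h4 : vb (r / 2) = vb r / 8 := by unfold vb; ring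
      rw [inter_comm] at h2
      rw [h4] at h2
      linarith
    -- contradiction
    have hfinal : ε / (2 * r) * ((1 / 8 - ε / 1000) * vb r) * vb r ≤
        64 * Real.pi * r ^ 2 * (ε / 1000 * vb r) := by
      refine le_trans ?_ hup
      rw [hmean]
      exact mul_le_mul_of_nonneg_right
        ((mul_le_mul_of_nonneg_left hhalf (by positivity)).trans hlow) hvb.le
    have hdiv : ε * ((1 / 8 - ε / 1000) * (2 * Real.pi / 3)) ≤ 64 * Real.pi * (ε / 1000) := by
      have h1 : ε / (2 * r) * ((1 / 8 - ε / 1000) * vb r) * vb r =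
          (ε * ((1 / 8 - ε / 1000) * (2 * Real.pi / 3))) * (r ^ 2 * vb r) := by
        unfold vb
        field_simp
        ring
      have h2 : 64 * Real.pi * r ^ 2 * (ε / 1000 * vb r) =
          (64 * Real.pi * (ε / 1000)) * (r ^ 2 * vb r) := by ring
      rw [h1, h2] at hfinal
      exact le_of_mul_le_mul_right hfinal (by positivity)
    have h5 : 0 < ε * Real.pi := by positivity
    nlinarith
  have hU : volume (⋃ n : ℕ, {y : E3 | V τ y = c ∧ 1 / ((n:ℝ) + 1) < τ y}) = 0 :=
    measure_iUnion_null key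
  rw [ae_iff]
  refine measure_mono_null (fun y hy => ?_) hU
  simp only [Classical.not_imp, mem_ofPred_eq] at hy
  have hpos : 0 < τ y := lt_of_le_of_ne (dτ.nn y) (Ne.symm hy.2)
  obtain ⟨n, hn⟩ := exists_nat_one_div_lt hpos
  exact mem_iUnion.2 ⟨n, hy.1, hn⟩

end Pool.Agent.R740.Hol
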