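import Mathlib

/-! # Minimisers of convex functions on bounded closed convex sets of a Hilbert space -/

set_option autoImplicit false

open Set Filter Topology Metric

namespace Pool.Agent.R740.Hol

theorem exists_min_hilbert {H : Type*} [NormedAddCommGroup H] [InnerProductSpace ℝ H]
    [CompleteSpace H] {C : Set H} (hcl : IsClosed C) (hne : C.Nonempty)
    (hbd : Bornology.IsBounded C) {F : H → ℝ} (hF : ConvexOn ℝ C F) (hcont : ContinuousOn F C)
    (hbb : BddBelow (F '' C)) : ∃ x ∈ C, ∀ y ∈ C, F x ≤ F y := by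
  set I := sInf (F '' C) with hI
  let Cn : ℕ → Set H := fun n => {x | x ∈ C ∧ F x ≤ I + 1 / ((n:ℝ) + 1)}
  have hcnc : ∀ n, IsClosed (Cn n) := fun n => by
    have := hcont.preimage_isClosed_of_isClosed hcl (isClosed_Iic (a := I + 1 / ((n:ℝ) + 1)))
    exact this
  have hcnv : ∀ n, Convex ℝ (Cn n) := fun n => hF.convex_le _
  have hcne : ∀ n, (Cn n).Nonempty := fun n => by
    have hp : (0:ℝ) < 1 / ((n:ℝ) + 1) := by positivity
    obtain ⟨_, ⟨x, hx, rfl⟩, hlt⟩ := exists_lt_of_csInf_lt (hne.image F)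
      (show sInf (F '' C) < I + 1 / ((n:ℝ) + 1) by linarith)
    exact ⟨x, hx, hlt.le⟩
  have hmono : ∀ m n, m ≤ n → Cn n ⊆ Cn m := fun m n hmn x hx => by
    refine ⟨hx.1, hx.2.trans ?_⟩
    have : 1 / ((n:ℝ) + 1) ≤ 1 / ((m:ℝ) + 1) := by
      apply one_div_le_one_div_of_le (by positivity)
      have : (m:ℝ) ≤ n := by exact_mod_cast hmn
      linarith
    linarith
  have hex : ∀ n, ∃ v ∈ Cn n, ∀ w ∈ Cn n, ‖v‖ ^ 2 ≤ inner ℝ v w := fun n => by
    obtain ⟨v, hv, hvn⟩ := exists_norm_eq_iInf_of_complete_convex (hcne n)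
      (hcnc n).isComplete (hcnv n) 0
    refine ⟨v, hv, fun w hw => ?_⟩
    have h1 := (norm_eq_iInf_iff_real_inner_le_zero (hcnv n) hv).1 hvn w hw
    rw [zero_sub, inner_neg_left, inner_sub_right, real_inner_self_eq_norm_sq] at h1
    linarith
  choose x hxm hxi using hex
  have hmon : Monotone fun n => ‖x n‖ ^ 2 := by
    intro m n hmn
    have h1 := hxi m (x n) (hmono m n hmn (hxm n))
    have h2 := real_inner_le_norm (x m) (x n)
    have h3 : ‖x m‖ ≤ ‖x n‖ := by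
      rcases (norm_nonneg (x m)).eq_or_lt with h | h
      · rw [← h]; exact norm_nonneg _
      · have : ‖x m‖ * ‖x m‖ ≤ ‖x m‖ * ‖x n‖ := by nlinarith
        exact le_of_mul_le_mul_left this h
    exact pow_le_pow_left₀ (norm_nonneg _) h3 2
  obtain ⟨B, hB⟩ := hbd.exists_norm_le
  have hbdd : BddAbove (range fun n => ‖x n‖ ^ 2) := by
    refine ⟨B ^ 2, ?_⟩
    rintro _ ⟨n, rfl⟩
    exact pow_le_pow_left₀ (norm_nonneg _) (hB _ (hxm n).1) 2
  have hlim := tendsto_atTop_ciSup hmon hbdd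
  have hd : ∀ m n, m ≤ n → ‖x n - x m‖ ^ 2 ≤ ‖x n‖ ^ 2 - ‖x m‖ ^ 2 := by
    intro m n hmn
    have h1 := hxi m (x n) (hmono m n hmn (hxm n))
    rw [@norm_sub_sq_real, real_inner_comm]
    linarith
  have hcs : CauchySeq x := by
    rw [Metric.cauchySeq_iff']
    intro ε hε
    have h1 := (Metric.cauchySeq_iff'.1 hlim.cauchySeq) (ε ^ 2) (by positivity)
    obtain ⟨N, hN⟩ := h1
    refine ⟨N, fun n hn => ?_⟩
    have h2 := hN n hn
    rw [Real.dist_eq] at h2
    have h3 := hd N n hn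
    rw [dist_eq_norm]
    have h4 := le_abs_self (‖x n‖ ^ 2 - ‖x N‖ ^ 2)
    exact lt_of_pow_lt_pow_left₀ 2 hε.le (by linarith)
  obtain ⟨z, hz⟩ := cauchySeq_tendsto_of_complete hcs
  have hzm : ∀ m, z ∈ Cn m := fun m =>
    (hcnc m).mem_of_tendsto hz (eventually_atTop.2 ⟨m, fun n hn => hmono m n hn (hxm n)⟩)
  refine ⟨z, (hzm 0).1, fun y hy => ?_⟩
  have h1 : F z ≤ I := by
    have h2 : Tendsto (fun n : ℕ => I + 1 / ((n:ℝ) + 1)) atTop (𝓝 (I + 0)) :=
      tendsto_const_nhds.add tendsto_one_div_add_atTop_nhds_zero_nat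
    rw [add_zero] at h2
    exact ge_of_tendsto' h2 fun n => (hzm n).2
  exact h1.trans (csInf_le hbb ⟨y, hy, rfl⟩)

end Pool.Agent.R740.Hol
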