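import Pool.Agent.R740.Hol.Pot
import Pool.Agent.R740.Hol.Min

/-! # Existence of the density of the obstacle problem (energy minimisation) -/

set_option autoImplicit false

open MeasureTheory Set Filter Topology Metric
open scoped ENNReal

namespace Pool.Agent.R740.Hol

open Pool.Agent.H283R3.Newt

lemma int4 {a b d e : E3 → ℝ} (ha : Integrable a) (hb : Integrable b) (hd : Integrable d)
    (he : Integrable e) : ∫ y, ((a y + b y) - (d y + e y)) =
      ((∫ y, a y) + ∫ y, b y) - ((∫ y, d y) + ∫ y, e y) := by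
  have h1 := integral_sub (ha.add hb) (hd.add he)
  simp only [Pi.add_apply] at h1
  rw [h1, integral_add ha hb, integral_add hd he]

/-- total mass -/
noncomputable def Ms (a : E3 → ℝ) : ℝ := ∫ x, a x

/-- quadratic form -/
noncomputable def Q (a b : E3 → ℝ) : ℝ := ∫ x, a x * V b x

/-- the energy -/
noncomputable def En (c : ℝ) (a : E3 → ℝ) : ℝ := 1 / 2 * Q a a - c * Ms a

lemma V_lin {R : ℝ} (hR : 0 < R) {a b : E3 → ℝ} (ha : Good R a) (hb : Good R b) (s t : ℝ) (x : E3) :
    V (fun y => s * a y + t * b y) x = s * V a x + t * V b x := by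
  unfold V
  rw [← integral_const_mul, ← integral_const_mul,
    ← integral_add ((ha.int_kern hR x).const_mul s) ((hb.int_kern hR x).const_mul t)]
  congr 1
  ext y
  ring

lemma Q_lin {R : ℝ} (hR : 0 < R) {a b : E3 → ℝ} (ha : Good R a) (hb : Good R b) (s t : ℝ) :
    Q (fun y => s * a y + t * b y) (fun y => s * a y + t * b y) =
      s ^ 2 * Q a a + 2 * s * t * Q a b + t ^ 2 * Q b b := by
  have hs : Q b a = Q a b := V_symm hR hb ha
  have h1 : Q (fun y => s * a y + t * b y) (fun y => s * a y + t * b y) =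
      ∫ x, (s ^ 2 * (a x * V a x) + s * t * (a x * V b x) + (s * t * (b x * V a x) +
        t ^ 2 * (b x * V b x))) := by
    unfold Q
    congr 1
    ext x
    rw [V_lin hR ha hb]
    ring
  have i1 := int_mulV hR ha ha
  have i2 := int_mulV hR ha hb
  have i3 := int_mulV hR hb ha
  have i4 := int_mulV hR hb hb
  rw [h1, integral_add, integral_add, integral_add, integral_const_mul, integral_const_mul,
    integral_const_mul, integral_const_mul]
  · change s ^ 2 * Q a a + s * t * Q a b + (s * t * Q b a + t ^ 2 * Q b b) = _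
    rw [hs]; ring
  · exact i3.const_mul _
  · exact i4.const_mul _
  · exact i1.const_mul _
  · exact i2.const_mul _
  · exact (i1.const_mul _).add (i2.const_mul _)
  · exact (i3.const_mul _).add (i4.const_mul _)

lemma En_congr {c : ℝ} {a b : E3 → ℝ} (h : a =ᵐ[volume] b) : En c a = En c b := by
  unfold En Q
  congr 2
  · apply integral_congr_ae
    filter_upwards [h] with x hx
    rw [hx, V_congr h]
  · exact integral_congr_ae h

lemma clip_lip (a b : ℝ) : |max 0 (min 1 a) - max 0 (min 1 b)| ≤ |a - b| := by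
  refine (abs_max_sub_max_le_max 0 (min 1 a) 0 (min 1 b)).trans ?_
  refine max_le (by simp) ?_
  refine (abs_min_sub_min_le_max 1 a 1 b).trans ?_
  exact max_le (by simp) le_rfl

section
variable {R : ℝ} {D : Set E3} (hR : 0 < R) (hD : MeasurableSet D) (hDR : D ⊆ ball 0 R)

/-- the density of an element of `L²(D)` -/
noncomputable def dens (D : Set E3) (h : E3 → ℝ) : E3 → ℝ :=
  D.indicator fun y => max 0 (min 1 (h y))

include hD hDR in
lemma dens_den {h : E3 → ℝ} (hh : Measurable h) : Den R (dens D h) := by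
  refine ⟨Measurable.indicator (by fun_prop) hD, fun y => ?_, fun y => ?_⟩
  · unfold dens
    exact indicator_nonneg (fun _ _ => le_max_left _ _) y
  · unfold dens
    by_cases hy : y ∈ D
    · rw [indicator_of_mem hy, indicator_of_mem (hDR hy)]
      simp
    · rw [indicator_of_notMem hy]
      exact ind_nonneg R y

/-- admissible class -/
def CC (D : Set E3) : Set (Lp ℝ 2 (volume.restrict D : Measure E3)) :=
  {h | ∀ᵐ y ∂(volume.restrict D : Measure E3), 0 ≤ h y ∧ h y ≤ 1}

include hD in
lemma dens_ae {h : Lp ℝ 2 (volume.restrict D : Measure E3)} (hh : h ∈ CC D) :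
    dens D h =ᵐ[volume] D.indicator h := by
  have h1 : ∀ᵐ y ∂(volume : Measure E3), y ∈ D → 0 ≤ h y ∧ h y ≤ 1 := (ae_restrict_iff' hD).1 hh
  filter_upwards [h1] with y hy
  unfold dens
  by_cases hyD : y ∈ D
  · rw [indicator_of_mem hyD, indicator_of_mem hyD, min_eq_right (hy hyD).2, max_eq_right (hy hyD).1]
  · rw [indicator_of_notMem hyD, indicator_of_notMem hyD]

include hD in
lemma ind_congr {f g : E3 → ℝ} (h : f =ᵐ[volume.restrict D] g) :
    D.indicator f =ᵐ[volume] D.indicator g := by
  have h1 : ∀ᵐ y ∂(volume : Measure E3), y ∈ D → f y = g y := (ae_restrict_iff' hD).1 h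
  filter_upwards [h1] with y hy
  by_cases hyD : y ∈ D
  · rw [indicator_of_mem hyD, indicator_of_mem hyD, hy hyD]
  · rw [indicator_of_notMem hyD, indicator_of_notMem hyD]

lemma CC_convex (D : Set E3) : Convex ℝ (CC D) := by
  intro f hf g hg a b ha hb hab
  change ∀ᵐ y ∂(volume.restrict D : Measure E3), _
  filter_upwards [hf, hg, Lp.coeFn_add (a • f) (b • g), Lp.coeFn_smul a f, Lp.coeFn_smul b g]
    with y h1 h2 h3 h4 h5
  rw [h3, Pi.add_apply, h4, h5, Pi.smul_apply, Pi.smul_apply, smul_eq_mul, smul_eq_mul]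
  constructor
  · have := mul_nonneg ha h1.1
    have := mul_nonneg hb h2.1
    linarith
  · have := mul_le_mul_of_nonneg_left h1.2 ha
    have := mul_le_mul_of_nonneg_left h2.2 hb
    linarith

lemma CC_eq (D : Set E3) [IsFiniteMeasure (volume.restrict D : Measure E3)] :
    CC D = Icc (0 : Lp ℝ 2 (volume.restrict D : Measure E3)) (Lp.const 2 (volume.restrict D) (1:ℝ)) := by
  ext h
  rw [mem_Icc, ← Lp.coeFn_nonneg, ← Lp.coeFn_le]
  have hc := Lp.coeFn_const (p := 2) (μ := (volume.restrict D : Measure E3)) (c := (1:ℝ))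
  constructor
  · intro hh
    refine ⟨?_, ?_⟩
    · filter_upwards [hh] with y hy using hy.1
    · filter_upwards [hh, hc] with y hy hy2
      rw [hy2]
      exact hy.2
  · rintro ⟨h1, h2⟩
    change ∀ᵐ y ∂(volume.restrict D : Measure E3), _
    filter_upwards [h1, h2, hc] with y hy1 hy2 hy3
    rw [hy3] at hy2
    exact ⟨hy1, hy2⟩

lemma Den.combo {R : ℝ} {a b : E3 → ℝ} (ha : Den R a) (hb : Den R b) {s t : ℝ} (hs : 0 ≤ s)
    (ht : 0 ≤ t) (hst : s + t = 1) : Den R (fun y => s * a y + t * b y) := by
  refine ⟨by have := ha.meas; have := hb.meas; fun_prop, fun y => ?_, fun y => ?_⟩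
  · have := mul_nonneg hs (ha.nn y)
    have := mul_nonneg ht (hb.nn y)
    linarith
  · have h1 := mul_le_mul_of_nonneg_left (ha.le y) hs
    have h2 := mul_le_mul_of_nonneg_left (hb.le y) ht
    calc s * a y + t * b y ≤ s * (ball (0:E3) R).indicator 1 y + t * (ball (0:E3) R).indicator 1 y :=
          add_le_add h1 h2
      _ = (s + t) * (ball (0:E3) R).indicator 1 y := by ring
      _ = _ := by rw [hst, one_mul]

lemma En_lin {R : ℝ} (hR : 0 < R) {a b : E3 → ℝ} (ha : Good R a) (hb : Good R b) (c s t : ℝ) :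
    En c (fun y => s * a y + t * b y) =
      1 / 2 * (s ^ 2 * Q a a + 2 * s * t * Q a b + t ^ 2 * Q b b) -
        c * (s * Ms a) - c * (t * Ms b) := by
  unfold En Ms
  rw [Q_lin hR ha hb, integral_add ((ha.integrable hR).const_mul _) ((hb.integrable hR).const_mul _),
    integral_const_mul, integral_const_mul]
  ring

lemma Q_psd2 {R : ℝ} (hR : 0 < R) {a b : E3 → ℝ} (ha : Den R a) (hb : Den R b) :
    0 ≤ Q a a - 2 * Q a b + Q b b := by
  have h := V_psd hR (ha.sub_good hb)
  have h1 := Q_lin hR ha.good hb.good 1 (-1)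
  have h2 : (fun y => (1:ℝ) * a y + (-1) * b y) = fun y => a y - b y := by ext y; ring
  rw [h2] at h1
  unfold Q at h1 ⊢
  linarith

lemma lp_meas (h : Lp ℝ 2 (volume.restrict D : Measure E3)) : Measurable (h : E3 → ℝ) :=
  (Lp.stronglyMeasurable h).measurable

include hD in
lemma dens_combo {f g : Lp ℝ 2 (volume.restrict D : Measure E3)} (hf : f ∈ CC D) (hg : g ∈ CC D)
    {a b : ℝ} (ha : 0 ≤ a) (hb : 0 ≤ b) (hab : a + b = 1) :
    dens D (a • f + b • g : Lp ℝ 2 (volume.restrict D : Measure E3)) =ᵐ[volume]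
      fun y => a * dens D f y + b * dens D g y := by
  have h0 := dens_ae hD (CC_convex D hf hg ha hb hab)
  have h1 : ((a • f + b • g : Lp ℝ 2 (volume.restrict D : Measure E3)) : E3 → ℝ)
      =ᵐ[volume.restrict D] fun y => a * f y + b * g y := by
    filter_upwards [Lp.coeFn_add (a • f) (b • g), Lp.coeFn_smul a f, Lp.coeFn_smul b g]
      with y h3 h4 h5
    rw [h3, Pi.add_apply, h4, h5, Pi.smul_apply, Pi.smul_apply, smul_eq_mul, smul_eq_mul]
  filter_upwards [h0, ind_congr hD h1, dens_ae hD hf, dens_ae hD hg] with y e0 e1 e2 e3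
  rw [e0, e1, e2, e3]
  by_cases hy : y ∈ D
  · simp [indicator_of_mem hy]
  · simp [indicator_of_notMem hy]

/-- the energy on `L²(D)` -/
noncomputable def FF (c : ℝ) (D : Set E3) (h : Lp ℝ 2 (volume.restrict D : Measure E3)) : ℝ :=
  En c (dens D h)

include hR hD hDR in
lemma FF_convex (c : ℝ) : ConvexOn ℝ (CC D) (FF c D) := by
  refine ⟨CC_convex D, fun f hf g hg a b ha hb hab => ?_⟩
  have df := dens_den hD hDR (lp_meas f)
  have dg := dens_den hD hDR (lp_meas g)
  unfold FF
  rw [En_congr (dens_combo hD hf hg ha hb hab), En_lin hR df.good dg.good]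
  have h1 := Q_psd2 hR df dg
  have h2 : 0 ≤ a * b := mul_nonneg ha hb
  have hb' : b = 1 - a := by linarith
  subst hb'
  simp only [smul_eq_mul]
  unfold En
  nlinarith [mul_nonneg h2 h1]

include hD in
lemma int_abs_le [IsFiniteMeasure (volume.restrict D : Measure E3)]
    (f g : Lp ℝ 2 (volume.restrict D : Measure E3)) :
    ∫ y, |dens D f y - dens D g y| ≤
      ‖Lp.const 2 (volume.restrict D : Measure E3) (1:ℝ)‖ * ‖f - g‖ := by
  set u : Lp ℝ 2 (volume.restrict D : Measure E3) := |f - g| with hu
  have h1 : ∫ y in D, |f y - g y| = inner ℝ u (Lp.const 2 (volume.restrict D : Measure E3) (1:ℝ)) := by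
    rw [L2.inner_def]
    apply integral_congr_ae
    filter_upwards [Lp.coeFn_abs (f - g), Lp.coeFn_sub f g,
      Lp.coeFn_const (p := 2) (μ := (volume.restrict D : Measure E3)) (c := (1:ℝ))] with y h1 h2 h3
    rw [hu, h1, h2, h3]
    simp
  have h2 : ∫ y in D, |f y - g y| ≤ ‖Lp.const 2 (volume.restrict D : Measure E3) (1:ℝ)‖ * ‖f - g‖ := by
    rw [h1]
    refine (real_inner_le_norm _ _).trans ?_
    rw [hu, norm_abs_eq_norm, mul_comm]
  refine le_trans ?_ h2
  rw [← integral_indicator hD]
  have hint : IntegrableOn (fun y => |f y - g y|) D :=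
    (((Lp.memLp f).integrable (by norm_num)).sub ((Lp.memLp g).integrable (by norm_num))).abs
  apply integral_mono_of_nonneg (ae_of_all _ fun y => abs_nonneg _)
    ((integrable_indicator_iff hD).2 hint)
  refine ae_of_all _ fun y => ?_
  unfold dens
  by_cases hy : y ∈ D
  · simp only [indicator_of_mem hy]
    exact clip_lip _ _
  · simp [indicator_of_notMem hy]

include hR hD hDR in
lemma FF_lip (c : ℝ) : ∃ K : ℝ, 0 ≤ K ∧
    ∀ f g : Lp ℝ 2 (volume.restrict D : Measure E3), |FF c D f - FF c D g| ≤ K * ‖f - g‖ := by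
  have : IsFiniteMeasure (volume.restrict D : Measure E3) :=
    ⟨by rw [Measure.restrict_apply_univ]; exact (measure_mono hDR).trans_lt measure_ball_lt_top⟩
  have hB : (0:ℝ) ≤ 2 * Real.pi * R ^ 2 := by positivity
  refine ⟨(2 * Real.pi * R ^ 2 + |c|) * ‖Lp.const 2 (volume.restrict D : Measure E3) (1:ℝ)‖,
    by positivity, fun f g => ?_⟩
  have df := dens_den hD hDR (lp_meas f)
  have dg := dens_den hD hDR (lp_meas g)
  have hdi : Integrable (fun y => |dens D f y - dens D g y|) := ((df.sub_good dg).integrable hR).abs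
  have h1 : Q (dens D f) (dens D f) - Q (dens D g) (dens D g) =
      ∫ y, (dens D f y - dens D g y) * (V (dens D f) y + V (dens D g) y) := by
    have hs : Q (dens D f) (dens D g) = Q (dens D g) (dens D f) := V_symm hR df.good dg.good
    have e : ∫ y, (dens D f y - dens D g y) * (V (dens D f) y + V (dens D g) y) =
        ∫ y, ((dens D f y * V (dens D f) y + dens D f y * V (dens D g) y) -
          (dens D g y * V (dens D f) y + dens D g y * V (dens D g) y)) := by
      congr 1; ext y; ring
    have i1 := int_mulV hR df.good df.good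
    have i2 := int_mulV hR df.good dg.good
    have i3 := int_mulV hR dg.good df.good
    have i4 := int_mulV hR dg.good dg.good
    rw [e, int4 i1 i2 i3 i4]
    unfold Q at hs ⊢
    linarith
  have h2 : |∫ y, (dens D f y - dens D g y) * (V (dens D f) y + V (dens D g) y)| ≤
      ∫ y, |dens D f y - dens D g y| * (2 * (2 * Real.pi * R ^ 2)) := by
    refine abs_integral_le_integral_abs.trans ?_
    apply integral_mono_of_nonneg (ae_of_all _ fun y => abs_nonneg _) (hdi.mul_const _)
    refine ae_of_all _ fun y => ?_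
    simp only
    rw [abs_mul]
    have b1 := V_bdd hR df.good y
    have b2 := V_bdd hR dg.good y
    have b3 := abs_add_le (V (dens D f) y) (V (dens D g) y)
    exact mul_le_mul_of_nonneg_left (by linarith) (abs_nonneg _)
  rw [integral_mul_const] at h2
  have h3 : |Ms (dens D f) - Ms (dens D g)| ≤ ∫ y, |dens D f y - dens D g y| := by
    unfold Ms
    rw [← integral_sub (df.good.integrable hR) (dg.good.integrable hR)]
    exact abs_integral_le_integral_abs
  have h4 := int_abs_le hD f g
  unfold FF En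
  have h5 : |1 / 2 * Q (dens D f) (dens D f) - c * Ms (dens D f) -
      (1 / 2 * Q (dens D g) (dens D g) - c * Ms (dens D g))| ≤
      1 / 2 * |Q (dens D f) (dens D f) - Q (dens D g) (dens D g)| +
        |c| * |Ms (dens D f) - Ms (dens D g)| := by
    have e : 1 / 2 * Q (dens D f) (dens D f) - c * Ms (dens D f) -
      (1 / 2 * Q (dens D g) (dens D g) - c * Ms (dens D g)) =
      1 / 2 * (Q (dens D f) (dens D f) - Q (dens D g) (dens D g)) -
        c * (Ms (dens D f) - Ms (dens D g)) := by ring
    rw [e]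
    refine (abs_sub _ _).trans ?_
    rw [abs_mul, abs_mul, abs_of_pos (by norm_num : (0:ℝ) < 1 / 2)]
  refine h5.trans ?_
  rw [h1]
  set S := ∫ y, |dens D f y - dens D g y| with hS
  calc 1 / 2 * |∫ y, (dens D f y - dens D g y) * (V (dens D f) y + V (dens D g) y)| +
        |c| * |Ms (dens D f) - Ms (dens D g)|
      ≤ 1 / 2 * (S * (2 * (2 * Real.pi * R ^ 2))) + |c| * S := by
        gcongr
    _ = (2 * Real.pi * R ^ 2 + |c|) * S := by ring
    _ ≤ (2 * Real.pi * R ^ 2 + |c|) *
          (‖Lp.const 2 (volume.restrict D : Measure E3) (1:ℝ)‖ * ‖f - g‖) := by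
        gcongr
    _ = _ := by ring

include hR hD hDR in
lemma exists_FF_min (c : ℝ) : ∃ h ∈ CC D, ∀ g ∈ CC D, FF c D h ≤ FF c D g := by
  have : IsFiniteMeasure (volume.restrict D : Measure E3) :=
    ⟨by rw [Measure.restrict_apply_univ]; exact (measure_mono hDR).trans_lt measure_ball_lt_top⟩
  obtain ⟨K, hK, hlip⟩ := FF_lip hR hD hDR c
  have hb : ∀ h ∈ CC D, ‖h‖ ≤ ‖Lp.const 2 (volume.restrict D : Measure E3) (1:ℝ)‖ := by
    intro h hh
    rw [CC_eq] at hh
    apply norm_le_norm_of_abs_le_abs
    rw [abs_of_nonneg hh.1]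
    exact hh.2.trans (le_abs_self _)
  apply exists_min_hilbert
  · rw [CC_eq]; exact isClosed_Icc
  · refine ⟨0, ?_⟩
    change ∀ᵐ y ∂(volume.restrict D : Measure E3), _
    filter_upwards [Lp.coeFn_zero ℝ 2 (volume.restrict D : Measure E3)] with y hy
    rw [hy]
    simp
  · rw [Metric.isBounded_iff_subset_closedBall 0]
    exact ⟨_, fun h hh => mem_closedBall_zero_iff.2 (hb h hh)⟩
  · exact FF_convex hR hD hDR c
  · apply Continuous.continuousOn
    apply (LipschitzWith.of_dist_le' (K := K) fun f g => ?_).continuous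
    rw [Real.dist_eq, dist_eq_norm]
    exact hlip f g
  · refine ⟨FF c D 0 - K * ‖Lp.const 2 (volume.restrict D : Measure E3) (1:ℝ)‖, ?_⟩
    rintro _ ⟨h, hh, rfl⟩
    have h1 := hlip h 0
    rw [sub_zero] at h1
    have h2 := (abs_le.1 h1).1
    have h3 := mul_le_mul_of_nonneg_left (hb h hh) hK
    linarith

/-- existence of a density with the two complementarity relations -/
theorem exists_density {R : ℝ} {D : Set E3} (hR : 0 < R) (hD : MeasurableSet D)
    (hDR : D ⊆ ball 0 R) (c : ℝ) : ∃ τ : E3 → ℝ, Den R τ ∧ (∀ y, y ∉ D → τ y = 0) ∧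
      (∀ᵐ y ∂(volume : Measure E3), y ∈ D → V τ y < c → τ y = 1) ∧
      (∀ᵐ y ∂(volume : Measure E3), c < V τ y → τ y = 0) := by
  have : IsFiniteMeasure (volume.restrict D : Measure E3) :=
    ⟨by rw [Measure.restrict_apply_univ]; exact (measure_mono hDR).trans_lt measure_ball_lt_top⟩
  obtain ⟨h, hh, hmin⟩ := exists_FF_min hR hD hDR c
  set τ := dens D h with hτ
  have dτ : Den R τ := dens_den hD hDR (lp_meas h)
  have hoff : ∀ y, y ∉ D → τ y = 0 := fun y hy => indicator_of_notMem hy _
  have hVm : Measurable (V τ) := (dτ.good.V_cont hR).measurable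
  set S : Set E3 := D ∩ {y | V τ y < c} with hS
  have hSm : MeasurableSet S := hD.inter (measurableSet_lt hVm measurable_const)
  set g : E3 → ℝ := S.indicator 1 with hg
  have hgm : Measurable g := measurable_one.indicator hSm
  have hg01 : ∀ y, 0 ≤ g y ∧ g y ≤ 1 := fun y => by
    rw [hg]; unfold indicator; split_ifs <;> simp
  have dg : Den R g := ⟨hgm, fun y => (hg01 y).1, fun y => by
    apply indicator_le_indicator_of_subset (inter_subset_left.trans hDR)
    intro y; simp⟩
  have hgL : MemLp g 2 (volume.restrict D : Measure E3) :=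
    MemLp.of_bound hgm.aestronglyMeasurable 1 (ae_of_all _ fun y => by
      rw [Real.norm_eq_abs, abs_of_nonneg (hg01 y).1]; exact (hg01 y).2)
  set G : Lp ℝ 2 (volume.restrict D : Measure E3) := hgL.toLp g with hG
  have hGae : (G : E3 → ℝ) =ᵐ[volume.restrict D] g := hgL.coeFn_toLp
  have hGC : G ∈ CC D := by
    change ∀ᵐ y ∂(volume.restrict D : Measure E3), _
    filter_upwards [hGae] with y hy
    rw [hy]; exact hg01 y
  have hdG : dens D G =ᵐ[volume] g := by
    filter_upwards [dens_ae hD hGC, ind_congr hD hGae] with y h1 h2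
    rw [h1, h2]
    by_cases hy : y ∈ D
    · rw [indicator_of_mem hy]
    · rw [indicator_of_notMem hy, hg, indicator_of_notMem (fun h => hy h.1)]
  -- first variation
  have hvar : ∀ t : ℝ, 0 < t → t ≤ 1 →
      0 ≤ (Q τ g - Q τ τ - c * (Ms g - Ms τ)) + t * (1 / 2 * (Q τ τ - 2 * Q τ g + Q g g)) := by
    intro t ht ht1
    have h1 := hmin _ (CC_convex D hh hGC (by linarith : 0 ≤ 1 - t) ht.le (by ring))
    unfold FF at h1
    have h2 : dens D ((1 - t) • h + t • G : Lp ℝ 2 (volume.restrict D : Measure E3)) =ᵐ[volume]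
        fun y => (1 - t) * τ y + t * g y := by
      filter_upwards [dens_combo hD hh hGC (by linarith : 0 ≤ 1 - t) ht.le (by ring), hdG]
        with y e1 e2
      rw [e1, e2]
    rw [En_congr h2, En_lin hR dτ.good dg.good] at h1
    unfold En at h1
    have h3 : 0 ≤ t * ((Q τ g - Q τ τ - c * (Ms g - Ms τ)) +
        t * (1 / 2 * (Q τ τ - 2 * Q τ g + Q g g))) := by
      nlinarith [h1]
    exact nonneg_of_mul_nonneg_right h3 ht
  have hP : 0 ≤ Q τ τ - 2 * Q τ g + Q g g := Q_psd2 hR dτ dg
  have hL : 0 ≤ Q τ g - Q τ τ - c * (Ms g - Ms τ) := by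
    set L := Q τ g - Q τ τ - c * (Ms g - Ms τ) with hLdef
    set P := 1 / 2 * (Q τ τ - 2 * Q τ g + Q g g) with hPdef
    have hP' : 0 ≤ P := by rw [hPdef]; linarith
    by_contra hneg
    push Not at hneg
    have ht0 : 0 < min 1 (-L / (2 * P + 1)) := lt_min one_pos (div_pos (by linarith) (by linarith))
    have h1 := hvar _ ht0 (min_le_left _ _)
    have h2 : min 1 (-L / (2 * P + 1)) * P ≤ (-L / (2 * P + 1)) * P :=
      mul_le_mul_of_nonneg_right (min_le_right _ _) hP'
    have h3 : (-L / (2 * P + 1)) * P < -L := by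
      rw [div_mul_eq_mul_div, div_lt_iff₀ (by linarith)]
      nlinarith
    linarith
  -- the first variation as an integral
  have i1 := int_mulV hR dτ.good dτ.good
  have i2 := int_mulV hR dg.good dτ.good
  have hLi : ∫ y, (g y - τ y) * (V τ y - c) = Q τ g - Q τ τ - c * (Ms g - Ms τ) := by
    have e : ∫ y, (g y - τ y) * (V τ y - c) =
        ∫ y, ((g y * V τ y - τ y * V τ y) - (c * g y - c * τ y)) := by
      congr 1; ext y; ring
    have hs : Q τ g = Q g τ := V_symm hR dτ.good dg.good
    have e2 := integral_sub (i2.sub i1) (((dg.good.integrable hR).const_mul c).sub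
      ((dτ.good.integrable hR).const_mul c))
    simp only [Pi.sub_apply] at e2
    rw [e, e2, integral_sub i2 i1,
      integral_sub ((dg.good.integrable hR).const_mul c) ((dτ.good.integrable hR).const_mul c),
      integral_const_mul, integral_const_mul, hs]
    unfold Q Ms
    ring
  have hnonpos : ∀ y, (g y - τ y) * (V τ y - c) ≤ 0 := by
    intro y
    by_cases hy : y ∈ S
    · have h1 : g y = 1 := indicator_of_mem hy _
      have h2 := dτ.le_one y
      have h3 : V τ y < c := hy.2
      rw [h1]
      exact mul_nonpos_of_nonneg_of_nonpos (by linarith) (by linarith)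
    · have h1 : g y = 0 := indicator_of_notMem hy _
      rw [h1]
      by_cases hyD : y ∈ D
      · have h3 : c ≤ V τ y := not_lt.1 fun h => hy ⟨hyD, h⟩
        have h2 := dτ.nn y
        exact mul_nonpos_of_nonpos_of_nonneg (by linarith) (by linarith)
      · rw [hoff y hyD]; simp
  have hint : Integrable (fun y => (g y - τ y) * (V τ y - c)) := by
    have e : (fun y => (g y - τ y) * (V τ y - c)) =
        fun y => ((g y * V τ y - τ y * V τ y) - (c * g y - c * τ y)) := by
      ext y; ring
    rw [e]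
    exact (i2.sub i1).sub (((dg.good.integrable hR).const_mul c).sub
      ((dτ.good.integrable hR).const_mul c))
  have hzero : (fun y => -((g y - τ y) * (V τ y - c))) =ᵐ[volume] 0 := by
    refine (integral_eq_zero_iff_of_nonneg (fun y => by simpa using hnonpos y) hint.neg).1 ?_
    apply le_antisymm
    · change ∫ y, -((g y - τ y) * (V τ y - c)) ≤ 0
      rw [integral_neg, hLi]
      linarith
    · exact integral_nonneg fun y => by simpa using hnonpos y
  refine ⟨τ, dτ, hoff, ?_, ?_⟩
  · filter_upwards [hzero] with y hy hyD hyV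
    have h1 : g y = 1 := indicator_of_mem (show y ∈ S from ⟨hyD, hyV⟩) _
    simp only [Pi.zero_apply, neg_eq_zero, mul_eq_zero, h1] at hy
    rcases hy with h | h
    · linarith
    · linarith
  · filter_upwards [hzero] with y hy hyV
    have h1 : g y = 0 := indicator_of_notMem (fun h => absurd h.2 (not_lt.2 hyV.le)) _
    simp only [Pi.zero_apply, neg_eq_zero, mul_eq_zero, h1] at hy
    rcases hy with h | h
    · linarith
    · linarith

end

end Pool.Agent.R740.Hol
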