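import Pool.Agent.H283R3.Newt2

/-! # Boundaries of star-shaped compact sets are spheres -/

set_option autoImplicit false

open Set Filter Topology Metric

namespace Pool.Agent.R740.Hol

open Pool.Agent.H283R3.Newt

section
variable {K : Set E3} (hK : IsCompact K) (hne : K.Nonempty)
  (hstar : ∀ x ∈ K, ∀ t : ℝ, 0 ≤ t → t < 1 → t • x ∈ interior K)

include hne hstar in
lemma zero_mem_int : (0:E3) ∈ interior K := by
  obtain ⟨x, hx⟩ := hne
  have := hstar x hx 0 le_rfl one_pos
  rwa [zero_smul] at this

include hK hstar in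
lemma closure_int : closure (interior K) = K := by
  apply Subset.antisymm
  · exact closure_minimal interior_subset hK.isClosed
  · intro x hx
    have h1 : Tendsto (fun t : ℝ => t • x) (𝓝[<] 1) (𝓝 ((1:ℝ) • x)) :=
      ((continuous_id.smul continuous_const).tendsto 1).mono_left nhdsWithin_le_nhds
    rw [one_smul] at h1
    refine mem_closure_of_tendsto h1 ?_
    filter_upwards [Ioo_mem_nhdsLT (show (0:ℝ) < 1 from one_pos)] with t ht
    exact hstar x hx t ht.1.le ht.2

include hne hstar in
lemma int_connected : IsConnected (interior K) := by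
  have h0 := zero_mem_int hne hstar
  have hs : StarConvex ℝ (0:E3) (interior K) := by
    rw [starConvex_zero_iff]
    intro x hx t ht0 ht1
    rcases ht1.eq_or_lt with h | h
    · rw [h, one_smul]; exact hx
    · exact hstar x (interior_subset hx) t ht0 h
  exact (StarConvex.isPathConnected hs h0).isConnected

include hK hne hstar in
lemma frontier_homeo : Nonempty (frontier (interior K) ≃ₜ sphere (0:E3) 1) := by
  have h0 := zero_mem_int hne hstar
  have hfr : frontier (interior K) = K \ interior K := by
    rw [frontier, closure_int hK hstar, interior_interior]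
  have hcomp : CompactSpace (frontier (interior K)) := by
    rw [← isCompact_iff_compactSpace]
    rw [hfr]
    exact hK.diff isOpen_interior
  have hnz : ∀ x ∈ frontier (interior K), x ≠ 0 := by
    rintro x hx rfl
    rw [hfr] at hx
    exact hx.2 h0
  let f : frontier (interior K) → sphere (0:E3) 1 := fun x =>
    ⟨‖(x:E3)‖⁻¹ • (x:E3), by
      rw [mem_sphere_zero_iff_norm, norm_smul, norm_inv, norm_norm,
        inv_mul_cancel₀ (norm_ne_zero_iff.2 (hnz x x.2))]⟩
  have hf : Continuous f := by
    apply Continuous.subtype_mk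
    have h1 : Continuous fun x : frontier (interior K) => ‖(x:E3)‖⁻¹ :=
      (continuous_norm.comp continuous_subtype_val).inv₀ fun x => norm_ne_zero_iff.2 (hnz x x.2)
    exact h1.smul continuous_subtype_val
  have key : ∀ x y : E3, x ∈ frontier (interior K) → y ∈ frontier (interior K) →
      ‖x‖⁻¹ • x = ‖y‖⁻¹ • y → ‖x‖ ≤ ‖y‖ → x = y := by
    intro x y hx hy hxy hle
    have hx0 : 0 < ‖x‖ := norm_pos_iff.2 (hnz x hx)
    have hy0 : 0 < ‖y‖ := norm_pos_iff.2 (hnz y hy)
    have h1 : x = (‖x‖ / ‖y‖) • y := by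
      have h2 : x = ‖x‖ • (‖x‖⁻¹ • x) := by rw [smul_smul, mul_inv_cancel₀ hx0.ne', one_smul]
      rw [hxy, smul_smul] at h2
      rw [div_eq_mul_inv]
      exact h2
    rcases hle.eq_or_lt with h | h
    · rw [h, div_self hy0.ne', one_smul] at h1
      exact h1
    · exfalso
      have h2 : (‖x‖ / ‖y‖) • y ∈ interior K := by
        rw [hfr] at hy
        apply hstar y hy.1 _ (by positivity)
        rw [div_lt_one hy0]
        exact h
      rw [← h1] at h2
      rw [hfr] at hx
      exact hx.2 h2
  have hinj : Function.Injective f := by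
    intro x y hxy
    have h1 : ‖(x:E3)‖⁻¹ • (x:E3) = ‖(y:E3)‖⁻¹ • (y:E3) := congrArg Subtype.val hxy
    rcases le_total ‖(x:E3)‖ ‖(y:E3)‖ with h | h
    · exact Subtype.ext (key x y x.2 y.2 h1 h)
    · exact Subtype.ext (key y x y.2 x.2 h1.symm h).symm
  have hsurj : Function.Surjective f := by
    rintro ⟨θ, hθ⟩
    rw [mem_sphere_zero_iff_norm] at hθ
    have hScl : IsClosed {t : ℝ | 0 ≤ t ∧ t • θ ∈ K} :=
      (isClosed_le continuous_const continuous_id).inter
        (hK.isClosed.preimage (continuous_id.smul continuous_const))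
    obtain ⟨B, hB⟩ := hK.isBounded.exists_norm_le
    have hSb : IsCompact {t : ℝ | 0 ≤ t ∧ t • θ ∈ K} := by
      refine (isCompact_Icc (a := (0:ℝ)) (b := B)).of_isClosed_subset hScl ?_
      rintro t ⟨h1, h2⟩
      have h3 := hB _ h2
      rw [norm_smul, hθ, mul_one, Real.norm_of_nonneg h1] at h3
      exact ⟨h1, h3⟩
    have hSne : {t : ℝ | 0 ≤ t ∧ t • θ ∈ K}.Nonempty :=
      ⟨0, le_rfl, by rw [zero_smul]; exact interior_subset h0⟩
    obtain ⟨t, ⟨ht0, htK⟩, htmax⟩ := hSb.exists_isGreatest hSne
    have hnint : t • θ ∉ interior K := by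
      intro hint
      have hc : Tendsto (fun s : ℝ => s • θ) (𝓝[>] t) (𝓝 (t • θ)) :=
        ((continuous_id.smul continuous_const).tendsto t).mono_left nhdsWithin_le_nhds
      have hev := (hc.eventually (isOpen_interior.mem_nhds hint)).and self_mem_nhdsWithin
      obtain ⟨s, hs1, hs2⟩ := hev.exists
      have hs2' : t < s := hs2
      have := htmax ⟨ht0.trans hs2'.le, interior_subset hs1⟩
      linarith
    have htpos : 0 < t := by
      rcases ht0.eq_or_lt with h | h
      · rw [← h, zero_smul] at hnint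
        exact absurd h0 hnint
      · exact h
    refine ⟨⟨t • θ, by rw [hfr]; exact ⟨htK, hnint⟩⟩, ?_⟩
    apply Subtype.ext
    change ‖t • θ‖⁻¹ • (t • θ) = θ
    rw [norm_smul, hθ, mul_one, Real.norm_of_nonneg ht0, smul_smul, inv_mul_cancel₀ htpos.ne', one_smul]
  exact ⟨Continuous.homeoOfEquivCompactToT2 (f := Equiv.ofBijective f ⟨hinj, hsurj⟩) hf⟩

end

end Pool.Agent.R740.Hol
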