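import Pool.Agent.R740.Hol.Refl
import Pool.Agent.R740.Hol.Exist
import Pool.Agent.R740.Hol.Star

/-! # The cube -/

set_option autoImplicit false

open MeasureTheory Set Filter Topology Metric
open scoped ENNReal RealInnerProductSpace

namespace Pool.Agent.R740.Hol

open Pool.Agent.H283R3.Newt

/-- the open cube -/
def cube : Set E3 := {x | ∀ i, |x i| < 1}

lemma cube_open : IsOpen cube := by
  have : cube = ⋂ i : Fin 3, {x : E3 | |x i| < 1} := by
    ext x; simp [cube]
  rw [this]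
  apply isOpen_iInter_of_finite
  intro i
  exact isOpen_lt (by fun_prop) continuous_const

lemma cube_convex : Convex ℝ cube := by
  intro x hx y hy a b ha hb hab i
  have hx' := abs_lt.1 (hx i)
  have hy' := abs_lt.1 (hy i)
  simp only [PiLp.add_apply, PiLp.smul_apply, smul_eq_mul]
  rw [abs_lt]
  rcases ha.eq_or_lt with h | h
  · subst h
    have : b = 1 := by linarith
    subst this
    constructor <;> linarith [hy'.1, hy'.2]
  · have h1 : a * x i < a * 1 := mul_lt_mul_of_pos_left hx'.2 h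
    have h2 : b * y i ≤ b * 1 := mul_le_mul_of_nonneg_left hy'.2.le hb
    have h3 : a * (-1) < a * x i := mul_lt_mul_of_pos_left hx'.1 h
    have h4 : b * (-1) ≤ b * y i := mul_le_mul_of_nonneg_left hy'.1.le hb
    constructor <;> linarith

lemma cube_sub : cube ⊆ ball (0:E3) 2 := by
  intro x hx
  rw [mem_ball_zero_iff, EuclideanSpace.norm_eq, Real.sqrt_lt' (by norm_num), Fin.sum_univ_three]
  have h : ∀ i, ‖x i‖ ^ 2 < 1 := fun i => by
    have h1 := hx i
    rw [Real.norm_eq_abs]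
    nlinarith [abs_nonneg (x i)]
  have h0 := h 0
  have h1 := h 1
  have h2 := h 2
  linarith

lemma abs_apply_le (x : E3) (i : Fin 3) : |x i| ≤ ‖x‖ := by
  rw [← Real.norm_eq_abs]
  exact PiLp.norm_apply_le x i

lemma ball_sub_cube : ball (0:E3) 1 ⊆ cube := by
  intro x hx i
  rw [mem_ball_zero_iff] at hx
  exact (abs_apply_le x i).trans_lt hx

lemma zero_mem_cube : (0:E3) ∈ cube := fun i => by simp

/-- first kind of normal vectors -/
noncomputable def v1 (i : Fin 3) (a : ℝ) : E3 := EuclideanSpace.single i a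

/-- second kind of normal vectors -/
noncomputable def v2 (i j : Fin 3) (a : ℝ) : E3 := EuclideanSpace.single i a - EuclideanSpace.single j 1

lemma in_v1 (x : E3) (i : Fin 3) (a : ℝ) : ⟪x, v1 i a⟫ = a * x i := by
  unfold v1
  rw [EuclideanSpace.inner_single_right]
  simp

lemma in_v2 (x : E3) (i j : Fin 3) (a : ℝ) : ⟪x, v2 i j a⟫ = a * x i - x j := by
  unfold v2
  rw [inner_sub_right, EuclideanSpace.inner_single_right, EuclideanSpace.inner_single_right]
  simp

lemma v1_self (i : Fin 3) {a : ℝ} (ha : a ^ 2 = 1) : ⟪v1 i a, v1 i a⟫ = 1 := by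
  rw [in_v1]
  unfold v1
  simp
  nlinarith

lemma v2_self {i j : Fin 3} (hij : i ≠ j) {a : ℝ} (ha : a ^ 2 = 1) : ⟪v2 i j a, v2 i j a⟫ = 2 := by
  rw [in_v2]
  unfold v2
  simp [hij, hij.symm]
  nlinarith

lemma v1_ne (i : Fin 3) {a : ℝ} (ha : a ^ 2 = 1) : v1 i a ≠ 0 := by
  intro h
  have := v1_self i ha
  rw [h, inner_zero_left] at this
  exact zero_ne_one this

lemma v2_ne {i j : Fin 3} (hij : i ≠ j) {a : ℝ} (ha : a ^ 2 = 1) : v2 i j a ≠ 0 := by
  intro h
  have := v2_self hij ha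
  rw [h, inner_zero_left] at this
  norm_num at this

lemma abs_of_sq {a : ℝ} (ha : a ^ 2 = 1) : |a| = 1 := by
  have h1 : |a| ^ 2 = 1 := by rw [sq_abs]; exact ha
  nlinarith [abs_nonneg a]

lemma cube_v1 (i : Fin 3) {a : ℝ} (ha : a ^ 2 = 1) (x : E3) (hx : x ∈ cube) :
    sg (v1 i a) 0 x ∈ cube := by
  intro k
  unfold sg
  rw [v1_self i ha, in_v1]
  by_cases hk : k = i
  · subst hk
    have h1 : (x - (2 * (a * x k - 0) / 1) • v1 k a) k = - x k := by
      simp [v1]
      linear_combination (-2 * x k) * ha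
    rw [h1, abs_neg]
    exact hx k
  · have h1 : (x - (2 * (a * x i - 0) / 1) • v1 i a) k = x k := by
      simp [v1, hk]
    rw [h1]
    exact hx k

lemma cube_v2 {i j : Fin 3} (hij : i ≠ j) {a : ℝ} (ha : a ^ 2 = 1) (x : E3) (hx : x ∈ cube) :
    sg (v2 i j a) 0 x ∈ cube := by
  intro k
  unfold sg
  rw [v2_self hij ha, in_v2]
  by_cases hk : k = i
  · subst hk
    have h1 : (x - (2 * (a * x k - x j - 0) / 2) • v2 k j a) k = a * x j := by
      simp [v2, hij, hij.symm]
      linear_combination (- x k) * ha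
    rw [h1, abs_mul, abs_of_sq ha, one_mul]
    exact hx j
  · by_cases hk2 : k = j
    · subst hk2
      have h1 : (x - (2 * (a * x i - x k - 0) / 2) • v2 i k a) k = a * x i := by
        simp [v2, hij, hij.symm]
      rw [h1, abs_mul, abs_of_sq ha, one_mul]
      exact hx i
    · have h1 : (x - (2 * (a * x i - x j - 0) / 2) • v2 i j a) k = x k := by
        simp [v2, hk, hk2]
      rw [h1]
      exact hx k

section
variable {τ : E3 → ℝ} (dτ : Den 2 τ) {c : ℝ} (hV : ∀ x, V τ x ≤ c)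
  (hoff : ∀ y, y ∉ cube → τ y = 0)
  (h1 : ∀ᵐ y ∂(volume : Measure E3), y ∈ cube → V τ y < c → τ y = 1)

lemma exists_sign (t : ℝ) : ∃ a : ℝ, a ^ 2 = 1 ∧ a * t = |t| := by
  rcases le_total 0 t with h | h
  · exact ⟨1, by norm_num, by rw [abs_of_nonneg h, one_mul]⟩
  · exact ⟨-1, by norm_num, by rw [abs_of_nonpos h]; ring⟩

include dτ hV hoff h1 in
lemma mv1 {z : E3} (hz : V τ z = c) (i : Fin 3) {y : E3} (hy : ∀ k, k ≠ i → y k = z k)
    (hyi : |y i| ≤ |z i|) : V τ y = c := by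
  obtain ⟨a, ha, haz⟩ := exists_sign (z i)
  have h3 : |a * y i| = |y i| := by rw [abs_mul, abs_of_sq ha, one_mul]
  have h4 := abs_le.1 (h3.trans_le hyi)
  have h2 : y = z - (|z i| - a * y i) • v1 i a := by
    ext k
    by_cases hk : k = i
    · subst hk
      simp [v1]
      rw [← haz]
      linear_combination (z k - y k) * ha
    · simp [v1, hk, hy k hk]
  rw [h2]
  apply contact_seg (by norm_num : (0:ℝ) < 2) dτ hV cube_convex hoff h1 (v1_ne i ha) (cube_v1 i ha) hz
  · linarith [h4.2]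
  · rw [v1_self i ha, in_v1, haz]
    linarith [h4.1]

include dτ hV hoff h1 in
lemma mv2 {z : E3} (hz : V τ z = c) {i j : Fin 3} (hij : i ≠ j) {a : ℝ} (ha : a ^ 2 = 1)
    (haz : a * z i = |z i|) (hzj : z j = 0) {s : ℝ} (hs : 0 ≤ s) (hs2 : s ≤ |z i|) :
    V τ (z - s • v2 i j a) = c := by
  apply contact_seg (by norm_num : (0:ℝ) < 2) dτ hV cube_convex hoff h1 (v2_ne hij ha)
    (cube_v2 hij ha) hz hs
  rw [v2_self hij ha, in_v2, haz, hzj]
  linarith

include dτ hV hoff h1 in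
lemma approx1 {z : E3} (hz : V τ z = c) {i j : Fin 3} (hij : i ≠ j) (hi : z i ≠ 0) {δ : ℝ}
    (hδ : 0 < δ) : ∃ z' : E3, V τ z' = c ∧ z' i ≠ 0 ∧ |z i| - δ ≤ |z' i| ∧ z' j ≠ 0 ∧
      |z j| ≤ |z' j| ∧ ∀ k, k ≠ i → k ≠ j → z' k = z k := by
  by_cases hj : z j = 0
  · obtain ⟨a, ha, haz⟩ := exists_sign (z i)
    have hzi : 0 < |z i| := abs_pos.2 hi
    have hs : 0 < min δ (|z i| / 2) := lt_min hδ (by linarith)
    have hs2 : min δ (|z i| / 2) ≤ |z i| / 2 := min_le_right _ _
    have hs3 : min δ (|z i| / 2) ≤ δ := min_le_left _ _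
    set s := min δ (|z i| / 2) with hsdef
    have e1 : (z - s • v2 i j a) i = z i - s * a := by simp [v2, hij, hij.symm]
    have e2 : (z - s • v2 i j a) j = s := by simp [v2, hij, hij.symm, hj]
    have h5 : |z i| - s ≤ |z i - s * a| := by
      calc |z i| - s = a * (z i - s * a) := by rw [← haz]; linear_combination s * ha
        _ ≤ |a * (z i - s * a)| := le_abs_self _
        _ = |z i - s * a| := by rw [abs_mul, abs_of_sq ha, one_mul]
    refine ⟨z - s • v2 i j a, mv2 dτ hV hoff h1 hz hij ha haz hj hs.le (by linarith), ?_, ?_, ?_, ?_, ?_⟩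
    · rw [e1]
      intro h0
      rw [h0, abs_zero] at h5
      linarith
    · rw [e1]; linarith
    · rw [e2]; exact hs.ne'
    · rw [e2, hj, abs_zero]; exact abs_nonneg _
    · intro k hki hkj
      simp [v2, hki, hkj]
  · exact ⟨z, hz, hi, by linarith, hj, le_rfl, fun _ _ _ => rfl⟩

include dτ hV hoff h1 in
lemma approx {z : E3} (hz : V τ z = c) (hz0 : z ≠ 0) {δ : ℝ} (hδ : 0 < δ) :
    ∃ z' : E3, V τ z' = c ∧ ∀ m, z' m ≠ 0 ∧ |z m| - δ ≤ |z' m| := by
  obtain ⟨i, hi⟩ : ∃ i, z i ≠ 0 := by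
    by_contra hcon
    push Not at hcon
    exact hz0 (by ext k; simpa using hcon k)
  have h3 : ∀ i : Fin 3, ∃ j k : Fin 3, i ≠ j ∧ i ≠ k ∧ j ≠ k ∧ ∀ m, m = i ∨ m = j ∨ m = k := by
    decide
  obtain ⟨j, k, hij, hik, hjk, hall⟩ := h3 i
  obtain ⟨z1, hz1, a1, a2, a3, a4, a5⟩ := approx1 dτ hV hoff h1 hz hij hi (half_pos hδ)
  obtain ⟨z2, hz2, b1, b2, b3, b4, b5⟩ := approx1 dτ hV hoff h1 hz1 hik a1 (half_pos hδ)
  have e1 : z2 j = z1 j := b5 j hij.symm hjk
  have e2 : z1 k = z k := a5 k hik.symm hjk.symm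
  refine ⟨z2, hz2, fun m => ?_⟩
  rcases hall m with h | h | h
  · subst h
    exact ⟨b1, by linarith⟩
  · subst h
    rw [e1]
    exact ⟨a3, by linarith⟩
  · subst h
    rw [e2] at b4
    exact ⟨b3, by linarith⟩

include dτ hV hoff h1 in
lemma box {z : E3} (hz : V τ z = c) {y : E3} (hy : ∀ k, |y k| ≤ |z k|) : V τ y = c := by
  have s1 : V τ (!₂[y 0, z 1, z 2] : E3) = c := by
    apply mv1 dτ hV hoff h1 hz 0
    · intro k hk
      fin_cases k
      · exact absurd rfl hk
      · simp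
      · simp
    · simpa using hy 0
  have s2 : V τ (!₂[y 0, y 1, z 2] : E3) = c := by
    apply mv1 dτ hV hoff h1 s1 1
    · intro k hk
      fin_cases k
      · simp
      · exact absurd rfl hk
      · simp
    · simpa using hy 1
  apply mv1 dτ hV hoff h1 s2 2
  · intro k hk
    fin_cases k
    · simp
    · simp
    · exact absurd rfl hk
  · simpa using hy 2

lemma openbox (z : E3) : IsOpen {y : E3 | ∀ k, |y k| < |z k|} := by
  have : {y : E3 | ∀ k, |y k| < |z k|} = ⋂ k : Fin 3, {y : E3 | |y k| < |z k|} := by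
    ext x; simp
  rw [this]
  apply isOpen_iInter_of_finite
  intro i
  exact isOpen_lt (by fun_prop) continuous_const

include dτ hV hoff h1 in
lemma box_int {z : E3} (hz : V τ z = c) {y : E3} (hy : ∀ k, |y k| < |z k|) :
    y ∈ interior {x | V τ x = c} := by
  refine mem_interior.2 ⟨{y : E3 | ∀ k, |y k| < |z k|}, ?_, openbox z, hy⟩
  intro w hw
  exact box dτ hV hoff h1 hz fun k => (hw k).le

include dτ hV hoff h1 in
lemma contact_star {z0 : E3} (hz0 : V τ z0 = c) (hz0' : z0 ≠ 0) :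
    ∀ x ∈ {x | V τ x = c}, ∀ t : ℝ, 0 ≤ t → t < 1 → t • x ∈ interior {x | V τ x = c} := by
  intro x hx t ht0 ht1
  by_cases hx0 : x = 0
  · obtain ⟨z', hz', h2⟩ := approx dτ hV hoff h1 hz0 hz0' one_pos
    rw [hx0, smul_zero]
    apply box_int dτ hV hoff h1 hz'
    intro k
    simpa using (h2 k).1
  · have hev : ∀ᶠ δ in 𝓝[>] (0:ℝ), ∀ m, x m ≠ 0 → δ < (1 - t) * |x m| := by
      rw [eventually_all]
      intro m
      by_cases hm : x m = 0
      · exact Eventually.of_forall fun _ h => absurd hm h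
      · have : 0 < (1 - t) * |x m| := mul_pos (by linarith) (abs_pos.2 hm)
        filter_upwards [nhdsWithin_le_nhds (gt_mem_nhds this)] with δ hδ _ using hδ
    obtain ⟨δ, hδ1, hδ2⟩ := (hev.and self_mem_nhdsWithin).exists
    replace hδ2 : 0 < δ := hδ2
    obtain ⟨z', hz', h2⟩ := approx dτ hV hoff h1 hx hx0 hδ2
    apply box_int dτ hV hoff h1 hz'
    intro k
    have h3 := h2 k
    rw [PiLp.smul_apply, smul_eq_mul, abs_mul, abs_of_nonneg ht0]
    by_cases hk : x k = 0
    · rw [hk, abs_zero, mul_zero]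
      exact abs_pos.2 h3.1
    · have h4 := hδ1 k hk
      linarith [h3.2]

end

end Pool.Agent.R740.Hol
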