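import Pool.Agent.R740.Hol.Level

/-! # The hollow cube -/

set_option autoImplicit false

open MeasureTheory Set Filter Topology Metric
open scoped ENNReal RealInnerProductSpace

namespace Pool.Agent.R740.Hol

open Pool.Agent.H283R3.Newt

/-- the cavity -/
theorem exists_cavity : ∃ K : Set E3, IsCompact K ∧ K.Nonempty ∧ K ⊆ cube ∧
    (∀ x ∈ K, ∀ t : ℝ, 0 ≤ t → t < 1 → t • x ∈ interior K) ∧
    ∃ c : ℝ, ∀ P ∈ K, ∫ M in cube \ K, (dist P M)⁻¹ = c := by
  obtain ⟨c, hc, hout, xm, hxm⟩ := exists_level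
  obtain ⟨τ, dτ, hoff, h1, h2⟩ := exists_density two_pos' cube_open.measurableSet cube_sub c
  have hV : ∀ x, V τ x ≤ c := V_le two_pos' dτ hc h2
  have hcont := dτ.good.V_cont two_pos'
  have h0 := contact_zero two_pos' dτ hV
  have hle : ∀ x, V τ x ≤ V chi x := V_mono two_pos' dτ.good chi_den.good (ae_of_all _ fun y => by
    by_cases hy : y ∈ cube
    · rw [chi_on y hy]; exact dτ.le_one y
    · rw [chi_off y hy, hoff y hy])
  set K : Set E3 := {x | V τ x = c} with hK
  have hKcl : IsClosed K := isClosed_eq hcont continuous_const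
  have hKsub : K ⊆ cube := by
    intro x hx
    by_contra hxc
    have h3 := hout x hxc
    have h4 := hle x
    have h5 : V τ x = c := hx
    linarith
  have hKc : IsCompact K :=
    Metric.isCompact_of_isClosed_isBounded hKcl ((isBounded_ball (x := (0:E3)) (r := 2)).subset
      (hKsub.trans cube_sub))
  -- the density is the indicator of the shell
  have hτ : τ =ᵐ[volume] (cube \ K).indicator 1 := by
    filter_upwards [h1, h0] with y hy1 hy0
    by_cases hyD : y ∈ cube
    · by_cases hyK : y ∈ K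
      · rw [indicator_of_notMem (fun h => h.2 hyK)]
        exact hy0 hyK
      · rw [indicator_of_mem (show y ∈ cube \ K from ⟨hyD, hyK⟩)]
        exact hy1 hyD (lt_of_le_of_ne (hV y) hyK)
    · rw [indicator_of_notMem (fun h => hyD h.1)]
      exact hoff y hyD
  have hm : MeasurableSet (cube \ K) := cube_open.measurableSet.diff hKcl.measurableSet
  have hpot : ∀ P, ∫ M in cube \ K, (dist P M)⁻¹ = V τ P := by
    intro P
    rw [V_congr hτ, ← integral_indicator hm]
    unfold V
    congr 1
    ext y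
    by_cases hy : y ∈ cube \ K
    · rw [indicator_of_mem hy, indicator_of_mem hy]; simp
    · rw [indicator_of_notMem hy, indicator_of_notMem hy]; simp
  -- there is a nonzero contact point
  obtain ⟨z0, hz0, hz0'⟩ : ∃ z0, V τ z0 = c ∧ z0 ≠ 0 := by
    by_contra hcon
    push Not at hcon
    have hτ2 : τ =ᵐ[volume] chi := by
      filter_upwards [h1, ae_ne' 0] with y hy1 hy0
      by_cases hyD : y ∈ cube
      · rw [chi_on y hyD]
        exact hy1 hyD (lt_of_le_of_ne (hV y) fun h => hy0 (hcon y h))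
      · rw [chi_off y hyD, hoff y hyD]
    have h3 := hV xm
    rw [V_congr hτ2] at h3
    linarith
  refine ⟨K, hKc, ⟨z0, hz0⟩, hKsub, contact_star dτ hV hoff h1 hz0 hz0', c, fun P hP => ?_⟩
  rw [hpot P]
  exact hP

lemma cube_homeo : Nonempty (frontier cube ≃ₜ sphere (0:E3) 1) := by
  obtain ⟨h, -, -, h3⟩ := exists_homeomorph_image_interior_closure_frontier_eq_unitBall
    cube_convex ⟨0, by rw [cube_open.interior_eq]; exact zero_mem_cube⟩
    ((isBounded_ball (x := (0:E3)) (r := 2)).subset cube_sub)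
  rw [← h3]
  exact ⟨h.image (frontier cube)⟩

lemma mem_frontier_cube {x : E3} (h1 : x ∉ cube) (h2 : ∀ t : ℝ, 0 < t → t < 1 → t • x ∈ cube) :
    x ∈ frontier cube := by
  rw [frontier, cube_open.interior_eq]
  refine ⟨?_, h1⟩
  have h3 : Tendsto (fun t : ℝ => t • x) (𝓝[<] 1) (𝓝 ((1:ℝ) • x)) :=
    ((continuous_id.smul continuous_const).tendsto 1).mono_left nhdsWithin_le_nhds
  rw [one_smul] at h3
  refine mem_closure_of_tendsto h3 ?_
  filter_upwards [Ioo_mem_nhdsLT (show (0:ℝ) < 1 from one_pos)] with t ht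
  exact h2 t ht.1 ht.2

lemma point_frontier {a : ℝ} (ha : |a| < 1) : (!₂[1, a, 0] : E3) ∈ frontier cube := by
  apply mem_frontier_cube
  · intro h
    have := h 0
    simp at this
  · intro t ht0 ht1 i
    fin_cases i
    · simp [abs_of_pos ht0, ht1]
    · simp only [Fin.mk_one, PiLp.smul_apply, smul_eq_mul]
      simp
      rw [abs_of_pos ht0]
      nlinarith [abs_nonneg a]
    · simp

/-- the surface of the cube is not an affine image of a sphere -/
lemma cube_not_ellipsoid (f : E3 ≃ᵃ[ℝ] E3) : frontier cube ≠ f '' sphere (0:E3) 1 := by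
  intro h
  have hp := point_frontier (a := 1 / 2) (by rw [abs_of_pos] <;> norm_num)
  have hq := point_frontier (a := -(1 / 2)) (by rw [abs_neg, abs_of_pos] <;> norm_num)
  have hm := point_frontier (a := 0) (by norm_num)
  rw [h] at hp hq hm
  obtain ⟨p, hp1, hp2⟩ := hp
  obtain ⟨q, hq1, hq2⟩ := hq
  obtain ⟨m, hm1, hm2⟩ := hm
  rw [mem_sphere_zero_iff_norm] at hp1 hq1 hm1
  have hmid : m = midpoint ℝ p q := by
    apply f.injective
    have h1 : f (midpoint ℝ p q) = midpoint ℝ (f p) (f q) := f.toAffineMap.map_midpoint p q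
    rw [h1, hp2, hq2, hm2, midpoint_eq_smul_add]
    ext i
    fin_cases i <;> simp
    norm_num
  have h2 : m = (1 / 2 : ℝ) • (p + q) := by
    rw [hmid, midpoint_eq_smul_add]; norm_num
  have h3 : ‖p + q‖ = 2 := by
    have h4 : ‖m‖ = 1 / 2 * ‖p + q‖ := by
      rw [h2, norm_smul]; norm_num
    rw [hm1] at h4
    linarith
  have h5 := parallelogram_law_with_norm ℝ p q
  rw [h3, hp1, hq1] at h5
  have h6 : ‖p - q‖ = 0 := by nlinarith [norm_nonneg (p - q)]
  have h7 : p = q := sub_eq_zero.1 (norm_eq_zero.1 h6)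
  rw [h7, hq2] at hp2
  have h8 := congrArg (fun x : E3 => x 1) hp2
  simp at h8
  norm_num at h8

end Pool.Agent.R740.Hol
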