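import Pool.Agent.R740.Hol.Cube

/-! # The potential of the cube does not attain its maximum outside of the cube -/

set_option autoImplicit false

open MeasureTheory Set Filter Topology Metric
open scoped ENNReal RealInnerProductSpace

namespace Pool.Agent.R740.Hol

open Pool.Agent.H283R3.Newt

/-- the density of the full cube -/
noncomputable def chi : E3 → ℝ := cube.indicator 1

lemma chi_den : Den 2 chi := by
  refine ⟨measurable_one.indicator cube_open.measurableSet, fun y => ?_, fun y => ?_⟩
  · exact indicator_nonneg (fun _ _ => zero_le_one) y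
  · exact indicator_le_indicator_of_subset cube_sub (fun _ => zero_le_one) y

lemma chi_off (y : E3) (hy : y ∉ cube) : chi y = 0 := indicator_of_notMem hy _

lemma chi_on (y : E3) (hy : y ∈ cube) : chi y = 1 := indicator_of_mem hy _

lemma two_pos' : (0:ℝ) < 2 := by norm_num

lemma V_chi_pos (x : E3) : 0 < V chi x := by
  have hb : Den 2 ((ball (0:E3) 1).indicator 1) := by
    refine ⟨measurable_one.indicator isOpen_ball.measurableSet, fun y => ?_, fun y => ?_⟩
    · exact indicator_nonneg (fun _ _ => zero_le_one) y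
    · exact indicator_le_indicator_of_subset (ball_subset_ball (by norm_num)) (fun _ => zero_le_one) y
  have h1 : V ((ball (0:E3) 1).indicator 1) x ≤ V chi x :=
    V_mono two_pos' hb.good chi_den.good (ae_of_all _ fun y =>
      indicator_le_indicator_of_subset ball_sub_cube (fun _ => zero_le_one) y) x
  have h2 : V ((ball (0:E3) 1).indicator 1) x = Nn 1 (dist x 0) := by
    rw [← ball_pot one_pos 0 x, ← integral_indicator isOpen_ball.measurableSet]
    unfold V
    congr 1
    ext y
    by_cases hy : y ∈ ball (0:E3) 1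
    · rw [indicator_of_mem hy, indicator_of_mem hy]; simp
    · rw [indicator_of_notMem hy, indicator_of_notMem hy]; simp
  refine lt_of_lt_of_le ?_ h1
  rw [h2]
  unfold Nn
  have hpi := Real.pi_pos
  have hd : 0 ≤ dist x (0:E3) := dist_nonneg
  split_ifs with h
  · have : dist x (0:E3) ^ 2 < 1 := by nlinarith
    apply mul_pos (by positivity)
    nlinarith
  · push Not at h
    positivity

lemma chi_symm {v : E3} (hv : v ≠ 0) (hsym : ∀ x ∈ cube, sg v 0 x ∈ cube) (y : E3) :
    chi (sg v 0 y) = chi y := by
  by_cases hy : y ∈ cube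
  · rw [chi_on y hy, chi_on _ (hsym y hy)]
  · have h2 : sg v 0 y ∉ cube := fun h => hy (by have := hsym _ h; rwa [sg_sg hv] at this)
    rw [chi_off y hy, chi_off _ h2]

/-- the maximum of the potential of the cube is not attained outside of the cube -/
theorem exists_level : ∃ c : ℝ, 0 < c ∧ (∀ x, x ∉ cube → V chi x < c) ∧ ∃ x, c < V chi x := by
  have hx1 : (EuclideanSpace.single (0:Fin 3) (1:ℝ) : E3) ∈ cubeᶜ := by
    intro h
    have := h 0
    simp at this
  obtain ⟨xs, hxs, hm, hmax⟩ := exists_max two_pos' chi_den.good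
    (isClosed_compl_iff.2 cube_open) hx1 (V_chi_pos _)
  set m := V chi xs with hmdef
  suffices h : ∃ x, m < V chi x by
    obtain ⟨x, hx⟩ := h
    exact ⟨(m + V chi x) / 2, by linarith, fun y hy => by have := hmax y hy; linarith, x, by linarith⟩
  by_contra hcon
  push Not at hcon
  -- a coordinate which is at least one
  have hxs' : ∃ i, 1 ≤ |xs i| := by
    by_contra h
    push Not at h
    exact hxs h
  obtain ⟨i, hi⟩ := hxs'
  obtain ⟨a, ha, haz⟩ := exists_sign (xs i)
  set v := v1 i a with hv
  have hvne : v ≠ 0 := v1_ne i ha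
  have hsym := cube_v1 i ha
  set lam := |xs i| / 2 with hlam
  have hlam0 : 0 < lam := by rw [hlam]; linarith
  have hvv : ⟪v, v⟫ = 1 := v1_self i ha
  have hxv : ⟪xs, v⟫ = 2 * lam := by rw [hv, in_v1, haz, hlam]; ring
  have hmono : ∀ x, ⟪x, v⟫ ≤ lam → V chi (sg v lam x) ≤ V chi x := fun x hx =>
    moving two_pos' chi_den (c := m) hcon chi_off (ae_of_all _ fun y hy _ => chi_on y hy) hvne
      (fun z hz hzD => refl_cond cube_convex hvne hsym hlam0.le z hz hzD) hx
  -- the mirror image
  have hx' : ⟪sg v lam xs, v⟫ = 0 := by rw [sg_inner hvne, hxv]; ring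
  have e1 : V chi (sg v lam xs) = m := by
    apply le_antisymm (hcon _)
    have := hmono (sg v lam xs) (by rw [hx']; exact hlam0.le)
    rwa [sg_sg hvne] at this
  -- the difference vanishes on the half space
  set R' := 2 + ‖sg v lam 0‖ with hR'
  have hR0 : 0 < R' := by positivity
  have da : Den R' (fun y => chi (sg v lam y)) := chi_den.comp hvne lam
  have dc : Den R' chi := chi_den.mono (by rw [hR']; linarith [norm_nonneg (sg v lam 0)])
  have gd := da.sub_good dc
  have hu : ∀ z, V (fun y => chi (sg v lam y) - chi y) z = V chi (sg v lam z) - V chi z := fun z => by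
    rw [V_sub hR0 da.good dc.good, V_comp hvne]
  have hH : ∀ z ∈ {x : E3 | ⟪x, v⟫ < lam}, V (fun y => chi (sg v lam y) - chi y) z = 0 := by
    refine smp_conn hR0 gd (half_open v lam) (half_conn v lam) (M := 0) (fun z hz => ?_)
      (fun z hz _ => ?_) (x0 := sg v lam xs) ?_ ?_
    · rw [hu]
      have := hmono z (show ⟪z, v⟫ ≤ lam from le_of_lt hz)
      linarith
    · obtain ⟨r, hr, hsub⟩ := Metric.isOpen_iff.1 (half_open v lam) z hz
      refine ⟨r, hr, ae_of_all _ fun y hyb => ?_⟩
      by_cases hσ : sg v lam y ∈ cube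
      · have hyD := refl_cond cube_convex hvne hsym hlam0.le y (hsub hyb) hσ
        rw [chi_on y hyD, chi_on _ hσ, sub_self]
      · rw [chi_off _ hσ]
        have := chi_den.nn y
        linarith
    · change ⟪sg v lam xs, v⟫ < lam
      rw [hx']; exact hlam0
    · rw [hu, sg_sg hvne, e1, ← hmdef, sub_self]
  have hper1 : ∀ z, V chi (sg v lam z) = V chi z := by
    intro z
    rcases lt_trichotomy ⟪z, v⟫ lam with h | h | h
    · have := hH z h
      rw [hu] at this
      linarith
    · have : sg v lam z = z := by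
        unfold sg; rw [h, sub_self, mul_zero, zero_div, zero_smul, sub_zero]
      rw [this]
    · have h2 : ⟪sg v lam z, v⟫ < lam := by rw [sg_inner hvne]; linarith
      have := hH _ h2
      rw [hu, sg_sg hvne] at this
      linarith
  have hper2 : ∀ z, V chi (sg v 0 z) = V chi z := by
    intro z
    rw [← V_comp hvne]
    congr 1
    funext y
    exact chi_symm hvne hsym y
  have htr : ∀ z, V chi (z + (2 * lam) • v) = V chi z := by
    intro z
    rw [← hper2 z, ← hper1 (sg v 0 z)]
    congr 1
    have h3 : ⟪sg v 0 z, v⟫ = - ⟪z, v⟫ := by rw [sg_inner hvne]; ring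
    have h4 : sg v lam (sg v 0 z) = sg v 0 z - (2 * (⟪sg v 0 z, v⟫ - lam) / ⟪v, v⟫) • v := rfl
    rw [h4, h3, hvv]
    unfold sg
    rw [hvv]
    module
  have htrn : ∀ n : ℕ, V chi ((n * (2 * lam)) • v) = V chi 0 := by
    intro n
    induction n with
    | zero => simp
    | succ n ih =>
      rw [← ih, ← htr (((n:ℝ) * (2 * lam)) • v)]
      congr 1
      push_cast
      module
  obtain ⟨ρ, hρ⟩ := chi_den.good.V_small two_pos' (V_chi_pos 0)
  obtain ⟨n, hn⟩ := exists_nat_ge (ρ / (2 * lam))
  have hvn : ‖v‖ = 1 := by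
    have h5 := real_inner_self_eq_norm_sq v
    rw [hvv] at h5
    nlinarith [norm_nonneg v]
  have h6 := hρ (((n:ℝ) * (2 * lam)) • v) (by
    rw [norm_smul, hvn, mul_one, Real.norm_of_nonneg (by positivity)]
    rwa [div_le_iff₀ (by positivity)] at hn)
  rw [htrn n, abs_of_pos (V_chi_pos 0)] at h6
  exact lt_irrefl _ h6

end Pool.Agent.R740.Hol
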