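import Pool.Agent.H283R3.Newt3
import Pool.Agent.TH791.Coul

/-! # Newtonian potentials of bounded densities: linearity, symmetry, positivity, strong maximum
principle (for MP_7dd24e_an) -/

set_option autoImplicit false

open MeasureTheory Set Filter Topology Metric
open scoped ENNReal

namespace Pool.Agent.R740.Hol

open Pool.Agent.H283R3.Newt

/-- densities between `0` and `1` supported in the ball of radius `R` -/
structure Den (R : ℝ) (τ : E3 → ℝ) : Prop where
  meas : Measurable τ
  nn : ∀ y, 0 ≤ τ y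
  le : ∀ y, τ y ≤ (ball (0:E3) R).indicator 1 y

lemma Den.good {R : ℝ} {τ : E3 → ℝ} (h : Den R τ) : Good R τ :=
  ⟨h.meas, fun y => by rw [abs_of_nonneg (h.nn y)]; exact h.le y⟩

lemma ind_nonneg (R : ℝ) (y : E3) : (0:ℝ) ≤ (ball (0:E3) R).indicator 1 y := by
  unfold indicator; split_ifs <;> simp

lemma Den.sub_good {R : ℝ} {a b : E3 → ℝ} (ha : Den R a) (hb : Den R b) :
    Good R (fun y => a y - b y) :=
  ⟨ha.meas.sub hb.meas, fun y => by
    have h1 := ha.nn y
    have h2 := hb.nn y
    have h3 := ha.le y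
    have h4 := hb.le y
    rw [abs_le]
    constructor <;> linarith⟩

lemma Den.mono {R R' : ℝ} (hRR : R ≤ R') {τ : E3 → ℝ} (h : Den R τ) : Den R' τ :=
  ⟨h.meas, h.nn, fun y => (h.le y).trans (by
    apply indicator_le_indicator_of_subset (ball_subset_ball hRR)
    intro y; simp)⟩

lemma Den.le_one {R : ℝ} {τ : E3 → ℝ} (h : Den R τ) (y : E3) : τ y ≤ 1 :=
  (h.le y).trans (by unfold indicator; split_ifs <;> simp)

lemma V_sub {R : ℝ} (hR : 0 < R) {a b : E3 → ℝ} (ha : Good R a) (hb : Good R b) (x : E3) :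
    V (fun y => a y - b y) x = V a x - V b x := by
  unfold V
  rw [← integral_sub (ha.int_kern hR x) (hb.int_kern hR x)]
  congr 1
  ext y
  ring

lemma V_congr {a b : E3 → ℝ} (h : a =ᵐ[volume] b) (x : E3) : V a x = V b x := by
  unfold V
  apply integral_congr_ae
  filter_upwards [h] with y hy
  rw [hy]

lemma V_mono {R : ℝ} (hR : 0 < R) {a b : E3 → ℝ} (ha : Good R a) (hb : Good R b)
    (hab : ∀ᵐ y, a y ≤ b y) (x : E3) : V a x ≤ V b x := by
  unfold V
  apply integral_mono_ae (ha.int_kern hR x) (hb.int_kern hR x)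
  filter_upwards [hab] with y hy
  have : 0 ≤ (dist x y)⁻¹ := inv_nonneg.2 dist_nonneg
  exact mul_le_mul_of_nonneg_right hy this

lemma V_bdd {R : ℝ} (hR : 0 < R) {a : E3 → ℝ} (ha : Good R a) (x : E3) :
    |V a x| ≤ 2 * Real.pi * R ^ 2 :=
  (ha.V_abs_le hR x).trans (Nn_le hR (norm_nonneg x))

lemma int_mulV {R : ℝ} (hR : 0 < R) {a b : E3 → ℝ} (ha : Good R a) (hb : Good R b) :
    Integrable (fun x => a x * V b x) := by
  refine ((ha.integrable hR).abs.mul_const (2 * Real.pi * R ^ 2)).mono'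
    (ha.meas.mul (hb.V_cont hR).measurable).aestronglyMeasurable (ae_of_all _ fun x => ?_)
  rw [Real.norm_eq_abs, abs_mul]
  exact mul_le_mul_of_nonneg_left (V_bdd hR hb x) (abs_nonneg _)

lemma prod_int {R : ℝ} (hR : 0 < R) {a b : E3 → ℝ} (ha : Good R a) (hb : Good R b) :
    Integrable (fun p : E3 × E3 => a p.1 * (b p.2 * (dist p.1 p.2)⁻¹))
      ((volume : Measure E3).prod (volume : Measure E3)) := by
  have hm : Measurable (fun p : E3 × E3 => a p.1 * (b p.2 * (dist p.1 p.2)⁻¹)) := by
    have h1 := ha.meas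
    have h2 := hb.meas
    fun_prop
  rw [integrable_prod_iff hm.aestronglyMeasurable]
  constructor
  · exact ae_of_all _ fun x => (hb.int_kern hR x).const_mul (a x)
  · have hbabs : Good R (fun y => |b y|) := ⟨hb.meas.abs, fun y => by rw [abs_abs]; exact hb.bd y⟩
    have hE : (fun x : E3 => ∫ y : E3, ‖a x * (b y * (dist x y)⁻¹)‖) =
        fun x => |a x| * V (fun y => |b y|) x := by
      funext x
      unfold V
      rw [← integral_const_mul]
      congr 1
      ext y
      rw [Real.norm_eq_abs, abs_mul, abs_mul, abs_of_nonneg (inv_nonneg.2 (dist_nonneg (x := x) (y := y)))]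
    rw [hE]
    exact int_mulV hR ⟨ha.meas.abs, fun y => by rw [abs_abs]; exact ha.bd y⟩ hbabs

lemma V_symm {R : ℝ} (hR : 0 < R) {a b : E3 → ℝ} (ha : Good R a) (hb : Good R b) :
    ∫ x, a x * V b x = ∫ x, b x * V a x := by
  have h1 : ∫ x, a x * V b x = ∫ x, ∫ y, a x * (b y * (dist x y)⁻¹) := by
    congr 1; ext x; unfold V; rw [integral_const_mul]
  have h2 : ∫ x, b x * V a x = ∫ y, ∫ x, a x * (b y * (dist x y)⁻¹) := by
    congr 1; ext y; unfold V; rw [← integral_const_mul]
    congr 1; ext x; rw [dist_comm]; ring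
  rw [h1, h2]
  exact integral_integral_swap (prod_int hR ha hb)

lemma V_psd {R : ℝ} (hR : 0 < R) {a : E3 → ℝ} (ha : Good R a) : 0 ≤ ∫ x, a x * V a x := by
  have hN : Pool.Agent.TH791.Cl.Nice a := by
    refine ⟨ha.meas, ha.integrable hR, ?_⟩
    refine (ha.integrable hR).abs.mono' (ha.meas.abs.pow_const _).aestronglyMeasurable
      (ae_of_all _ fun x => ?_)
    have h1 := ha.abs_le_one x
    rw [Real.norm_of_nonneg (Real.rpow_nonneg (abs_nonneg _) _)]
    calc |a x| ^ (5 / 3 : ℝ) ≤ |a x| ^ (1 : ℝ) :=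
          Real.rpow_le_rpow_of_exponent_ge' (abs_nonneg _) h1 (by norm_num) (by norm_num)
      _ = |a x| := Real.rpow_one _
  have h := Pool.Agent.TH791.Cl.coulomb_pd a hN
  have h1 : ∫ x, a x * V a x = ∫ x, ∫ y, a x * a y / ‖x - y‖ := by
    congr 1
    ext x
    unfold V
    rw [← integral_const_mul]
    congr 1
    ext y
    rw [dist_eq_norm, div_eq_mul_inv]
    ring
  rw [h1]
  exact h

/-- strong maximum principle for potentials -/
theorem smp {R : ℝ} (hR : 0 < R) {τ : E3 → ℝ} (h : Good R τ) {x0 : E3} {r M : ℝ} (hr : 0 < r)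
    (hx : V τ x0 = M) (hle : ∀ y ∈ ball x0 r, V τ y ≤ M)
    (hτ : ∀ᵐ y ∂(volume : Measure E3), y ∈ ball x0 r → τ y ≤ 0) :
    ∀ y ∈ ball x0 r, V τ y = M := by
  have hcont := h.V_cont hR
  have hfin : volume (ball x0 r) ≠ ∞ := measure_ball_lt_top.ne
  have hio : ∀ f : E3 → ℝ, Continuous f → IntegrableOn f (ball x0 r) := fun f hf =>
    (hf.continuousOn.integrableOn_compact (isCompact_closedBall x0 r)).mono_set ball_subset_closedBall
  have hmd := h.mean_diff hR hr x0
  have hne : ∀ᵐ y : E3, y ≠ x0 := by simp [ae_iff]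
  have hneg : ∫ y, τ y * kr r (dist x0 y) ≤ 0 := by
    apply integral_nonpos_of_ae
    filter_upwards [hτ, hne] with y hy hyn
    simp only [Pi.zero_apply]
    have hd : 0 < dist x0 y := dist_pos.2 hyn.symm
    by_cases hb : y ∈ ball x0 r
    · exact mul_nonpos_of_nonpos_of_nonneg (hy hb) (kr_nonneg hr hd)
    · rw [kr_zero hr (by rw [mem_ball, not_lt, dist_comm] at hb; exact hb), mul_zero]
  rw [← hmd, hx, sub_nonpos, le_div_iff₀ (vb_pos hr)] at hneg
  have hconst : ∫ _ in ball x0 r, M = M * vb r := by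
    rw [setIntegral_const, measureReal_def, vol_ball hr, ENNReal.toReal_ofReal (vb_pos hr).le,
      smul_eq_mul, mul_comm]
  have hzero : ∫ z in ball x0 r, (M - V τ z) = 0 := by
    apply le_antisymm
    · rw [integral_sub (hio _ continuous_const) (hio _ hcont), hconst]
      linarith
    · exact setIntegral_nonneg isOpen_ball.measurableSet fun z hz => by linarith [hle z hz]
  have hae : (fun z => M - V τ z) =ᵐ[volume.restrict (ball x0 r)] 0 := by
    refine (setIntegral_eq_zero_iff_of_nonneg_ae ?_ (hio _ (continuous_const.sub hcont))).1 hzero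
    rw [EventuallyLE, ae_restrict_iff' isOpen_ball.measurableSet]
    exact ae_of_all _ fun z hz => by simpa using hle z hz
  have hEq := Measure.eqOn_open_of_ae_eq hae isOpen_ball
    (continuous_const.sub hcont).continuousOn continuousOn_const
  intro y hy
  have := hEq hy
  simp only [Pi.zero_apply] at this
  linarith

end Pool.Agent.R740.Hol
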