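import Pool.Agent.R740.Hol.Contact

/-! # Reflections and the moving plane comparison -/

set_option autoImplicit false

open MeasureTheory Set Filter Topology Metric
open scoped ENNReal RealInnerProductSpace

namespace Pool.Agent.R740.Hol

open Pool.Agent.H283R3.Newt

/-- reflection in the plane `⟪x, v⟫ = lam` -/
noncomputable def sg (v : E3) (lam : ℝ) (x : E3) : E3 := x - (2 * (⟪x, v⟫ - lam) / ⟪v, v⟫) • v

lemma inner_pos {v : E3} (hv : v ≠ 0) : 0 < ⟪v, v⟫ := real_inner_self_pos.2 hv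

lemma sg_inner {v : E3} (hv : v ≠ 0) (lam : ℝ) (x : E3) : ⟪sg v lam x, v⟫ = 2 * lam - ⟪x, v⟫ := by
  have h := (inner_pos hv).ne'
  unfold sg
  rw [inner_sub_left, real_inner_smul_left]
  field_simp
  ring

lemma sg_sg {v : E3} (hv : v ≠ 0) (lam : ℝ) (x : E3) : sg v lam (sg v lam x) = x := by
  have h := (inner_pos hv).ne'
  have h1 := sg_inner hv lam x
  have h2 : sg v lam (sg v lam x) =
      sg v lam x - (2 * (⟪sg v lam x, v⟫ - lam) / ⟪v, v⟫) • v := rfl
  rw [h2, h1]
  unfold sg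
  rw [sub_sub, ← add_smul]
  have : 2 * (⟪x, v⟫ - lam) / ⟪v, v⟫ + 2 * (2 * lam - ⟪x, v⟫ - lam) / ⟪v, v⟫ = 0 := by
    field_simp; ring
  rw [this, zero_smul, sub_zero]

lemma sg_dist {v : E3} (hv : v ≠ 0) (lam : ℝ) (x y : E3) :
    dist (sg v lam x) (sg v lam y) = dist x y := by
  have h := (inner_pos hv).ne'
  rw [dist_eq_norm, dist_eq_norm]
  have h1 : sg v lam x - sg v lam y = (x - y) - (2 * ⟪x - y, v⟫ / ⟪v, v⟫) • v := by
    unfold sg
    rw [inner_sub_left]
    module
  have h2 : ‖sg v lam x - sg v lam y‖ ^ 2 = ‖x - y‖ ^ 2 := by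
    rw [h1, @norm_sub_sq_real, real_inner_smul_right, norm_smul, mul_pow, ← real_inner_self_eq_norm_sq v,
      Real.norm_eq_abs, sq_abs]
    field_simp
    ring
  exact (sq_eq_sq₀ (norm_nonneg _) (norm_nonneg _)).1 h2

lemma sg_eq {v : E3} (lam : ℝ) (x : E3) :
    sg v lam x = (ℝ ∙ v)ᗮ.reflection x + (2 * lam / ⟪v, v⟫) • v := by
  rw [Submodule.reflection_orthogonal_apply, Submodule.reflection_singleton_apply]
  unfold sg
  simp only [RCLike.ofReal_real_eq_id, id_eq]
  rw [real_inner_comm v x, ← real_inner_self_eq_norm_sq v]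
  module

lemma sg_mp (v : E3) (lam : ℝ) : MeasurePreserving (sg v lam) volume volume := by
  have h1 : sg v lam = (fun x => x + (2 * lam / ⟪v, v⟫) • v) ∘ ((ℝ ∙ v)ᗮ.reflection) := by
    ext1 x
    exact sg_eq lam x
  rw [h1]
  exact (measurePreserving_add_right volume _).comp (LinearIsometryEquiv.measurePreserving _)

lemma sg_cont (v : E3) (lam : ℝ) : Continuous (sg v lam) := by
  unfold sg
  fun_prop

/-- the reflection as a homeomorphism -/
noncomputable def sgH {v : E3} (hv : v ≠ 0) (lam : ℝ) : E3 ≃ₜ E3 where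
  toFun := sg v lam
  invFun := sg v lam
  left_inv := sg_sg hv lam
  right_inv := sg_sg hv lam
  continuous_toFun := sg_cont v lam
  continuous_invFun := sg_cont v lam

lemma V_comp {v : E3} (hv : v ≠ 0) (lam : ℝ) (τ : E3 → ℝ) (x : E3) :
    V (fun y => τ (sg v lam y)) x = V τ (sg v lam x) := by
  unfold V
  rw [← (sg_mp v lam).integral_comp (sgH hv lam).measurableEmbedding
    (fun z => τ z * (dist (sg v lam x) z)⁻¹)]
  simp_rw [sg_dist hv]

lemma Den.comp {R : ℝ} {τ : E3 → ℝ} (dτ : Den R τ) {v : E3} (hv : v ≠ 0) (lam : ℝ) :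
    Den (R + ‖sg v lam 0‖) (fun y => τ (sg v lam y)) := by
  refine ⟨dτ.meas.comp (sg_cont v lam).measurable, fun y => dτ.nn _, fun y => ?_⟩
  by_cases hy : sg v lam y ∈ ball (0:E3) R
  · have h1 : y ∈ ball (0:E3) (R + ‖sg v lam 0‖) := by
      rw [mem_ball_zero_iff]
      have h2 : dist y (sg v lam 0) = dist (sg v lam y) 0 := by
        rw [← sg_dist hv lam y (sg v lam 0), sg_sg hv]
      rw [mem_ball, ← h2] at hy
      have h3 := dist_triangle y (sg v lam 0) 0
      rw [dist_zero_right, dist_zero_right] at h3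
      linarith
    rw [indicator_of_mem h1]
    exact dτ.le_one _
  · have h1 := dτ.le (sg v lam y)
    rw [indicator_of_notMem hy] at h1
    exact h1.trans (ind_nonneg _ _)

/-- half space facts -/
lemma half_open (v : E3) (lam : ℝ) : IsOpen {x : E3 | ⟪x, v⟫ < lam} :=
  isOpen_lt (by fun_prop) continuous_const

lemma half_closed (v : E3) (lam : ℝ) : IsClosed {x : E3 | ⟪x, v⟫ ≤ lam} :=
  isClosed_le (by fun_prop) continuous_const

lemma half_conn (v : E3) (lam : ℝ) : IsPreconnected {x : E3 | ⟪x, v⟫ < lam} := by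
  apply Convex.isPreconnected
  intro x hx y hy a b ha hb hab
  change ⟪a • x + b • y, v⟫ < lam
  rw [inner_add_left, real_inner_smul_left, real_inner_smul_left]
  have hx' : ⟪x, v⟫ < lam := hx
  have hy' : ⟪y, v⟫ < lam := hy
  rcases ha.eq_or_lt with h | h
  · subst h
    have : b = 1 := by linarith
    subst this
    linarith
  · have h1 : a * ⟪x, v⟫ < a * lam := mul_lt_mul_of_pos_left hx' h
    have h2 : b * ⟪y, v⟫ ≤ b * lam := mul_le_mul_of_nonneg_left hy'.le hb
    have h3 : a * lam + b * lam = lam := by rw [← add_mul, hab, one_mul]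
    linarith

/-- moving plane comparison -/
theorem moving {R : ℝ} (hR : 0 < R) {τ : E3 → ℝ} (dτ : Den R τ) {c : ℝ} (hV : ∀ x, V τ x ≤ c)
    {D : Set E3} (hoff : ∀ y, y ∉ D → τ y = 0)
    (h1 : ∀ᵐ y ∂(volume : Measure E3), y ∈ D → V τ y < c → τ y = 1)
    {v : E3} (hv : v ≠ 0) {lam : ℝ} (hrefl : ∀ x, ⟪x, v⟫ < lam → sg v lam x ∈ D → x ∈ D)
    {x : E3} (hx : ⟪x, v⟫ ≤ lam) : V τ (sg v lam x) ≤ V τ x := by
  set R' := R + ‖sg v lam 0‖ with hR'
  have hR0 : 0 < R' := by positivity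
  have da : Den R' (fun y => τ (sg v lam y)) := dτ.comp hv lam
  have dτ' : Den R' τ := dτ.mono (by rw [hR']; linarith [norm_nonneg (sg v lam 0)])
  have gd := da.sub_good dτ'
  have hu : ∀ z, V (fun y => τ (sg v lam y) - τ y) z = V τ (sg v lam z) - V τ z := fun z => by
    rw [V_sub hR0 da.good dτ'.good, V_comp hv]
  by_contra hcon
  push Not at hcon
  have hpos : 0 < V (fun y => τ (sg v lam y) - τ y) x := by rw [hu]; linarith
  obtain ⟨x0, hx0, hM, hmax⟩ := exists_max hR0 gd (half_closed v lam) (show x ∈ {x | _} from hx) hpos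
  set M := V (fun y => τ (sg v lam y) - τ y) x0 with hMdef
  have hbd : ∀ z : E3, ⟪z, v⟫ = lam → V (fun y => τ (sg v lam y) - τ y) z = 0 := fun z hz => by
    rw [hu]
    have : sg v lam z = z := by unfold sg; rw [hz, sub_self, mul_zero, zero_div, zero_smul, sub_zero]
    rw [this, sub_self]
  have hx0H : x0 ∈ {x : E3 | ⟪x, v⟫ < lam} := by
    rcases (show ⟪x0, v⟫ ≤ lam from hx0).lt_or_eq with h | h
    · exact h
    · exact absurd (hbd x0 h) hM.ne'
  have hall := smp_conn hR0 gd (half_open v lam) (half_conn v lam) (M := M)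
    (fun z hz => hmax z (show ⟪z, v⟫ ≤ lam from le_of_lt hz)) (fun z hz hzM => by
      have h2 : V τ z < c := by
        have h3 := hu z
        rw [hzM] at h3
        have := hV (sg v lam z)
        linarith
      have hop : IsOpen ({z | V τ z < c} ∩ {x : E3 | ⟪x, v⟫ < lam}) :=
        (isOpen_lt (dτ.good.V_cont hR) continuous_const).inter (half_open v lam)
      obtain ⟨r, hr, hsub⟩ := Metric.isOpen_iff.1 hop z ⟨h2, hz⟩
      refine ⟨r, hr, ?_⟩
      filter_upwards [h1] with y hy hyb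
      have hyS := hsub hyb
      by_cases hσ : sg v lam y ∈ D
      · have hyD := hrefl y hyS.2 hσ
        rw [hy hyD hyS.1]
        have := dτ.le_one (sg v lam y)
        linarith
      · rw [hoff _ hσ]
        have := dτ.nn y
        linarith) hx0H hMdef.symm
  -- contradiction on the boundary plane
  have hN := inner_pos hv
  set z : E3 := (lam / ⟪v, v⟫) • v with hz
  have hzv : ⟪z, v⟫ = lam := by
    rw [hz, real_inner_smul_left, div_mul_cancel₀ _ hN.ne']
  have hcu := gd.V_cont hR0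
  have htend : Tendsto (fun t : ℝ => V (fun y => τ (sg v lam y) - τ y) (z - t • v)) (𝓝[>] 0)
      (𝓝 (V (fun y => τ (sg v lam y) - τ y) (z - (0:ℝ) • v))) :=
    ((hcu.comp (by fun_prop : Continuous fun t : ℝ => z - t • v)).tendsto 0).mono_left
      nhdsWithin_le_nhds
  have hconst : Tendsto (fun t : ℝ => V (fun y => τ (sg v lam y) - τ y) (z - t • v)) (𝓝[>] 0)
      (𝓝 M) := by
    apply tendsto_const_nhds.congr'
    filter_upwards [self_mem_nhdsWithin] with t ht
    symm
    apply hall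
    change ⟪z - t • v, v⟫ < lam
    rw [inner_sub_left, hzv, real_inner_smul_left]
    have : 0 < t * ⟪v, v⟫ := mul_pos ht hN
    linarith
  have := tendsto_nhds_unique htend hconst
  rw [zero_smul, sub_zero, hbd z hzv] at this
  linarith

/-- a convex set which is symmetric in the plane `⟪x, v⟫ = 0` satisfies the reflection condition -/
lemma refl_cond {D : Set E3} (hD : Convex ℝ D) {v : E3} (hv : v ≠ 0)
    (hsym : ∀ x ∈ D, sg v 0 x ∈ D) {lam : ℝ} (hlam : 0 ≤ lam) (x : E3) (hx : ⟪x, v⟫ < lam)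
    (hxD : sg v lam x ∈ D) : x ∈ D := by
  set z := sg v lam x with hz
  have h1 : ⟪z, v⟫ = 2 * lam - ⟪x, v⟫ := sg_inner hv lam x
  have hN := inner_pos hv
  have hzp : 0 < ⟪z, v⟫ := by linarith
  have h2 : x = z - (2 * (⟪z, v⟫ - lam) / ⟪v, v⟫) • v := by
    have := sg_sg hv lam x
    rw [← hz] at this
    exact this.symm
  have h3 : x = (1 - (⟪z, v⟫ - lam) / ⟪z, v⟫) • z + ((⟪z, v⟫ - lam) / ⟪z, v⟫) • sg v 0 z := by
    nth_rw 1 [h2]
    unfold sg
    rw [sub_zero, smul_sub, smul_smul, sub_smul, one_smul]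
    have : (⟪z, v⟫ - lam) / ⟪z, v⟫ * (2 * ⟪z, v⟫ / ⟪v, v⟫) = 2 * (⟪z, v⟫ - lam) / ⟪v, v⟫ := by
      field_simp
    rw [this]
    abel
  rw [h3]
  apply hD hxD (hsym z hxD)
  · have : (⟪z, v⟫ - lam) / ⟪z, v⟫ ≤ 1 := by rw [div_le_one hzp]; linarith
    linarith
  · exact div_nonneg (by linarith) hzp.le
  · ring

/-- the contact set contains the segment from `z` to its mirror image -/
lemma contact_seg {R : ℝ} (hR : 0 < R) {τ : E3 → ℝ} (dτ : Den R τ) {c : ℝ} (hV : ∀ x, V τ x ≤ c)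
    {D : Set E3} (hD : Convex ℝ D) (hoff : ∀ y, y ∉ D → τ y = 0)
    (h1 : ∀ᵐ y ∂(volume : Measure E3), y ∈ D → V τ y < c → τ y = 1)
    {v : E3} (hv : v ≠ 0) (hsym : ∀ x ∈ D, sg v 0 x ∈ D) {z : E3} (hz : V τ z = c) {s : ℝ}
    (hs : 0 ≤ s) (hs2 : s * ⟪v, v⟫ ≤ 2 * ⟪z, v⟫) : V τ (z - s • v) = c := by
  have hN := inner_pos hv
  set lam := ⟪z, v⟫ - s * ⟪v, v⟫ / 2 with hlam
  have hlam0 : 0 ≤ lam := by rw [hlam]; linarith
  have h2 : sg v lam z = z - s • v := by
    unfold sg
    congr 2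
    rw [hlam]
    field_simp
    ring
  have h3 : ⟪z - s • v, v⟫ ≤ lam := by
    rw [inner_sub_left, real_inner_smul_left, hlam]
    have : 0 ≤ s * ⟪v, v⟫ := mul_nonneg hs hN.le
    linarith
  have h4 := moving hR dτ hV hoff h1 hv (lam := lam) (fun x hx hxD => refl_cond hD hv hsym hlam0 x hx hxD) h3
  rw [← h2, sg_sg hv, hz] at h4
  rw [← h2]
  exact le_antisymm (hV _) h4

end Pool.Agent.R740.Hol
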